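import Mathlib
import Pool.Agent.TH881.RK.Defs
import Pool.Agent.TH761.J2920

/-! Job 3802 (RK-B): the moment inequality for vectors of shifts modulo a primorial, from the abstract
one. -/

set_option autoImplicit false

namespace Pool.Agent.TH757.J3802

open Finset Filter Topology
open Pool.Agent.TH881
open Pool.Agent.TH881.RG
open Pool.Agent.TH881.RQ
open Pool.Agent.TH881.RK
open Pool.Agent.H373R2.T7
open Pool.Agent.TH761.J2920 (LA card_LA Aq_pos instNonemptyLA univ_any card_any I instFactI
  exists_equiv unit_iff mem_AA sum_AA card_AA)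

section loc

variable (pr : Bool) (m p : ℕ)

/-- the bad pairs -/
def bk (x : Fin m → ZMod p) (y : LA pr p) : Prop := ∃ j, x j + y.1 = 0

/-- related vectors -/
def Rk (x x' : Fin m → ZMod p) : Prop := ∃ y : LA pr p, bk pr m p x y ∧ bk pr m p x' y

open Classical in
/-- the number of the bad arguments -/
noncomputable def nb [Fact p.Prime] (x : Fin m → ZMod p) : ℕ :=
  (univ.filter (fun y : LA pr p => bk pr m p x y)).card

/-- the local weight -/
noncomputable def sk [Fact p.Prime] (x : Fin m → ZMod p) : ℝ := 1 - (nb pr m p x : ℝ) / Aq pr p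

variable [hp : Fact p.Prime]

lemma nb_le_A (x : Fin m → ZMod p) : nb pr m p x ≤ Aq pr p := by
  classical
  unfold nb
  rw [← card_LA]
  exact (card_filter_le _ _).trans (le_of_eq card_univ)

lemma nb_le_m (x : Fin m → ZMod p) : nb pr m p x ≤ m := by
  classical
  unfold nb
  have h1 : (univ.filter (fun y : LA pr p => bk pr m p x y)).card ≤
      ((univ : Finset (Fin m)).image (fun j => - x j)).card := by
    apply card_le_card_of_injOn (fun y : LA pr p => y.1)
    · intro y hy
      rw [mem_coe, mem_filter] at hy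
      obtain ⟨j, hj⟩ := hy.2
      rw [mem_coe, mem_image]
      exact ⟨j, mem_univ _, (eq_neg_of_add_eq_zero_right hj).symm⟩
    · intro y _ y' _ h
      exact Subtype.ext h
  exact h1.trans (card_image_le.trans (by rw [card_univ, Fintype.card_fin]))

lemma A_pos : (0 : ℝ) < Aq pr p := by exact_mod_cast Aq_pos pr p

lemma sk_nonneg (x : Fin m → ZMod p) : 0 ≤ sk pr m p x := by
  unfold sk
  rw [sub_nonneg, div_le_one (A_pos pr p)]
  exact_mod_cast nb_le_A pr m p x

lemma sk_le_one (x : Fin m → ZMod p) : sk pr m p x ≤ 1 := by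
  unfold sk
  have : 0 ≤ (nb pr m p x : ℝ) / Aq pr p := by positivity
  linarith

/-- the weight as a proportion of good arguments -/
lemma sk_eq (x : Fin m → ZMod p) (D : DecidablePred fun y : LA pr p => ¬ bk pr m p x y) :
    sk pr m p x = ((univ.filter (fun y : LA pr p => ¬ bk pr m p x y)).card : ℝ) / Aq pr p := by
  classical
  have h3 := card_filter_add_card_filter_not (s := (univ : Finset (LA pr p)))
    (fun y : LA pr p => bk pr m p x y)
  rw [card_univ, card_LA] at h3
  have h4 : ((univ.filter (fun y : LA pr p => ¬ bk pr m p x y)).card : ℝ) =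
      Aq pr p - (nb pr m p x : ℝ) := by
    rw [eq_sub_iff_add_eq, add_comm]
    unfold nb
    have h5 : (univ.filter (fun y : LA pr p => bk pr m p x y)).card +
      (univ.filter (fun y : LA pr p => ¬ bk pr m p x y)).card = Aq pr p := by convert h3
    exact_mod_cast h5
  rw [h4, sub_div, div_self (A_pos pr p).ne']
  rfl

/-- the number of the vectors without zero -/
lemma card_good (y : LA pr p) (D : DecidablePred fun x : Fin m → ZMod p => ¬ bk pr m p x y) :
    (univ.filter (fun x : Fin m → ZMod p => ¬ bk pr m p x y)).card = (p - 1) ^ m := by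
  classical
  have h1 : univ.filter (fun x : Fin m → ZMod p => ¬ bk pr m p x y) =
      Fintype.piFinset (fun _ : Fin m => univ.erase (-y.1)) := by
    ext x
    simp only [mem_filter, mem_univ, true_and, Fintype.mem_piFinset, mem_erase, and_true]
    unfold bk
    push Not
    exact forall_congr' fun j => by rw [Ne, Ne, add_eq_zero_iff_eq_neg]
  rw [h1, Fintype.card_piFinset, prod_const, card_erase_of_mem (mem_univ _), card_univ, ZMod.card,
    card_univ, Fintype.card_fin]

/-- the sum of the weights -/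
lemma sum_sk : ∑ x : Fin m → ZMod p, sk pr m p x = ((p : ℝ) - 1) ^ m := by
  classical
  have h1 : ∑ x : Fin m → ZMod p, sk pr m p x =
      (∑ x : Fin m → ZMod p, ∑ y : LA pr p, if ¬ bk pr m p x y then (1 : ℝ) else 0) / Aq pr p := by
    rw [sum_div]
    refine sum_congr rfl fun x _ => ?_
    rw [sk_eq pr m p x (fun y => Classical.propDecidable _), ← sum_filter, sum_const, nsmul_eq_mul,
      mul_one]
    congr!
  have h2 : ∀ y : LA pr p, ∑ x : Fin m → ZMod p, (if ¬ bk pr m p x y then (1 : ℝ) else 0) =
      ((p : ℝ) - 1) ^ m := by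
    intro y
    rw [← sum_filter, sum_const, nsmul_eq_mul, mul_one, card_good]
    push_cast
    rw [Nat.cast_sub hp.out.one_le, Nat.cast_one]
  rw [h1, sum_comm, sum_congr rfl (fun y _ => h2 y), sum_const, nsmul_eq_mul, card_univ, card_LA,
    mul_div_assoc, mul_comm, div_mul_cancel₀ _ (A_pos pr p).ne']

lemma uk_nonneg : 0 ≤ uk pr m p := by
  unfold uk
  positivity

lemma uk_lt : uk pr m p < 1 := by
  unfold uk
  rw [div_lt_one (A_pos pr p)]
  have h1 : min m (Aq pr p - 1) ≤ Aq pr p - 1 := min_le_right _ _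
  have h2 := Aq_pos pr p
  exact_mod_cast (by omega : min m (Aq pr p - 1) < Aq pr p)

lemma b_ge : 1 ≤ 1 / (1 - uk pr m p) := by
  have h1 := uk_nonneg pr m p
  have h2 := uk_lt pr m p
  rw [le_div_iff₀ (by linarith)]
  linarith

/-- the one step inequality -/
lemma onestep {K : ℕ} (τ : Fin K → (Fin m → ZMod p)) (x : Fin m → ZMod p)
    (D1 : DecidablePred fun y : LA pr p => (∀ j, ¬ bk pr m p (τ j) y) ∧ ¬ bk pr m p x y)
    (D2 : DecidablePred fun y : LA pr p => ∀ j, ¬ bk pr m p (τ j) y)
    (D4 : Decidable (∃ l, Rk pr m p (τ l) x)) :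
    ((univ.filter (fun y : LA pr p => (∀ j, ¬ bk pr m p (τ j) y) ∧ ¬ bk pr m p x y)).card : ℝ) ≤
      (if ∃ l, Rk pr m p (τ l) x then 1 / (1 - uk pr m p) else 1) * sk pr m p x *
        ((univ.filter (fun y : LA pr p => ∀ j, ¬ bk pr m p (τ j) y)).card : ℝ) := by
  classical
  have hA := A_pos pr p
  have hsub : univ.filter (fun y : LA pr p => (∀ j, ¬ bk pr m p (τ j) y) ∧ ¬ bk pr m p x y) ⊆
      univ.filter (fun y : LA pr p => ∀ j, ¬ bk pr m p (τ j) y) := by
    intro y hy
    rw [mem_filter] at hy ⊢
    exact ⟨hy.1, hy.2.1⟩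
  have hsub' : ((univ.filter (fun y : LA pr p => (∀ j, ¬ bk pr m p (τ j) y) ∧
      ¬ bk pr m p x y)).card : ℝ) ≤
      ((univ.filter (fun y : LA pr p => ∀ j, ¬ bk pr m p (τ j) y)).card : ℝ) := by
    exact_mod_cast card_le_card hsub
  have hg : ((univ.filter (fun y : LA pr p => ∀ j, ¬ bk pr m p (τ j) y)).card : ℝ) ≤ Aq pr p := by
    rw [← card_LA]
    exact_mod_cast card_filter_le _ _
  by_cases hR : ∃ l, Rk pr m p (τ l) x
  · rw [if_pos hR]
    rcases (nb_le_A pr m p x).eq_or_lt with h1 | h1
    · -- everything is bad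
      have h2 : sk pr m p x = 0 := by
        unfold sk
        rw [h1, div_self hA.ne', sub_self]
      rw [h2, mul_zero, zero_mul]
      have h3 : univ.filter (fun y : LA pr p => bk pr m p x y) = univ := by
        apply eq_univ_of_card
        rw [card_LA, ← h1]
        unfold nb
        congr!
      have h4 : univ.filter (fun y : LA pr p => (∀ j, ¬ bk pr m p (τ j) y) ∧ ¬ bk pr m p x y) =
          ∅ := by
        apply filter_false_of_mem
        intro y _ hy
        have h5 : y ∈ univ.filter (fun y : LA pr p => bk pr m p x y) := by rw [h3]; exact mem_univ _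
        exact hy.2 (mem_filter.1 h5).2
      rw [h4]
      simp
    · have h2 := uk_lt pr m p
      have h3 : (nb pr m p x : ℝ) / Aq pr p ≤ uk pr m p := by
        unfold uk
        apply div_le_div_of_nonneg_right _ hA.le
        have h4 := nb_le_m pr m p x
        exact_mod_cast (le_min h4 (by omega) : nb pr m p x ≤ min m (Aq pr p - 1))
      have h5 : 1 ≤ 1 / (1 - uk pr m p) * sk pr m p x := by
        rw [div_mul_eq_mul_div, one_mul, le_div_iff₀ (by linarith), one_mul]
        unfold sk
        linarith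
      refine hsub'.trans ?_
      nlinarith [(Nat.cast_nonneg _ : (0 : ℝ) ≤
        ((univ.filter (fun y : LA pr p => ∀ j, ¬ bk pr m p (τ j) y)).card : ℝ))]
  · rw [if_neg hR, one_mul]
    -- the bad arguments of `x` are good for all `τ`
    have h1 : (univ.filter (fun y : LA pr p => (∀ j, ¬ bk pr m p (τ j) y) ∧
        ¬ bk pr m p x y)).card + nb pr m p x ≤
        (univ.filter (fun y : LA pr p => ∀ j, ¬ bk pr m p (τ j) y)).card := by
      unfold nb
      rw [← card_union_of_disjoint]
      · apply card_le_card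
        intro y hy
        rw [mem_union, mem_filter, mem_filter] at hy
        rw [mem_filter]
        refine ⟨mem_univ _, ?_⟩
        rcases hy with hy | hy
        · exact hy.2.1
        · intro j hj
          exact hR ⟨j, y, hj, hy.2⟩
      · rw [disjoint_left]
        intro y hy hy'
        exact (mem_filter.1 hy).2.2 (mem_filter.1 hy').2
    have h2 : ((univ.filter (fun y : LA pr p => (∀ j, ¬ bk pr m p (τ j) y) ∧
        ¬ bk pr m p x y)).card : ℝ) + nb pr m p x ≤
        ((univ.filter (fun y : LA pr p => ∀ j, ¬ bk pr m p (τ j) y)).card : ℝ) := by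
      exact_mod_cast h1
    have h3 : (nb pr m p x : ℝ) / Aq pr p *
        ((univ.filter (fun y : LA pr p => ∀ j, ¬ bk pr m p (τ j) y)).card : ℝ) ≤ nb pr m p x := by
      rw [div_mul_eq_mul_div, div_le_iff₀ hA]
      exact mul_le_mul_of_nonneg_left hg (Nat.cast_nonneg _)
    unfold sk
    rw [sub_mul, one_mul]
    linarith

/-- the sum of the weights over the vectors with one prescribed entry -/
lemma sum_slice (j : Fin m) (c : ZMod p) (D : DecidablePred fun x : Fin m → ZMod p => x j = c) :
    ∑ x ∈ univ.filter (fun x : Fin m → ZMod p => x j = c), sk pr m p x ≤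
      ((p : ℝ) - 1) ^ (m - 1) := by
  classical
  have hA := A_pos pr p
  have h1 : ∑ x ∈ univ.filter (fun x : Fin m → ZMod p => x j = c), sk pr m p x =
      (∑ x ∈ univ.filter (fun x : Fin m → ZMod p => x j = c), ∑ y : LA pr p,
        if ¬ bk pr m p x y then (1 : ℝ) else 0) / Aq pr p := by
    rw [sum_div]
    refine sum_congr rfl fun x _ => ?_
    rw [sk_eq pr m p x (fun y => Classical.propDecidable _), ← sum_filter, sum_const, nsmul_eq_mul,
      mul_one]
    congr!
  have h2 : ∀ y : LA pr p, ∑ x ∈ univ.filter (fun x : Fin m → ZMod p => x j = c),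
      (if ¬ bk pr m p x y then (1 : ℝ) else 0) ≤ ((p : ℝ) - 1) ^ (m - 1) := by
    intro y
    rw [← sum_filter, sum_const, nsmul_eq_mul, mul_one, filter_filter]
    have h3 : univ.filter (fun x : Fin m → ZMod p => x j = c ∧ ¬ bk pr m p x y) ⊆
        Fintype.piFinset (fun i : Fin m => if i = j then {c} else univ.erase (-y.1)) := by
      intro x hx
      rw [mem_filter] at hx
      rw [Fintype.mem_piFinset]
      intro i
      by_cases hi : i = j
      · rw [if_pos hi, hi, mem_singleton]
        exact hx.2.1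
      · rw [if_neg hi, mem_erase]
        refine ⟨fun h => hx.2.2 ⟨i, ?_⟩, mem_univ _⟩
        rw [h, neg_add_cancel]
    have h4 := card_le_card h3
    rw [Fintype.card_piFinset] at h4
    have h5 : ∏ i : Fin m, (if i = j then ({c} : Finset (ZMod p)) else univ.erase (-y.1)).card =
        (p - 1) ^ (m - 1) := by
      have h6 : ∀ i : Fin m, (if i = j then ({c} : Finset (ZMod p)) else univ.erase (-y.1)).card =
          if i = j then 1 else p - 1 := by
        intro i
        split_ifs
        · exact card_singleton _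
        · rw [card_erase_of_mem (mem_univ _), card_univ, ZMod.card]
      rw [prod_congr rfl fun i _ => h6 i, prod_ite, prod_const_one, one_mul, prod_const]
      congr 1
      have h7 : univ.filter (fun i : Fin m => ¬ i = j) = univ.erase j := by
        ext i; simp
      rw [h7, card_erase_of_mem (mem_univ _), card_univ, Fintype.card_fin]
    rw [h5] at h4
    have h8 : ((univ.filter (fun x : Fin m → ZMod p => x j = c ∧ ¬ bk pr m p x y)).card : ℝ) ≤
        (((p - 1) ^ (m - 1) : ℕ) : ℝ) := by exact_mod_cast h4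
    refine h8.trans (le_of_eq ?_)
    push_cast
    rw [Nat.cast_sub hp.out.one_le, Nat.cast_one]
  rw [h1, sum_comm, div_le_iff₀ hA]
  refine (sum_le_sum fun y _ => h2 y).trans (le_of_eq ?_)
  rw [sum_const, nsmul_eq_mul, card_univ, card_LA, mul_comm]

/-- the column sums -/
lemma colsum (x : Fin m → ZMod p) (D : DecidablePred fun x' : Fin m → ZMod p => Rk pr m p x x') :
    ∑ x' ∈ univ.filter (fun x' : Fin m → ZMod p => Rk pr m p x x'), sk pr m p x' ≤
      (m : ℝ) ^ 2 / ((p : ℝ) - 1) * ((p : ℝ) - 1) ^ m := by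
  classical
  have hp1 : (0 : ℝ) < (p : ℝ) - 1 := by
    have : (2 : ℝ) ≤ p := by exact_mod_cast hp.out.two_le
    linarith
  have hsub : univ.filter (fun x' : Fin m → ZMod p => Rk pr m p x x') ⊆
      (univ.filter (fun y : LA pr p => bk pr m p x y)).biUnion (fun y =>
        (univ : Finset (Fin m)).biUnion (fun j =>
          univ.filter (fun x' : Fin m → ZMod p => x' j = -y.1))) := by
    intro x' hx'
    obtain ⟨y, hy, j, hj⟩ := (mem_filter.1 hx').2
    rw [mem_biUnion]
    refine ⟨y, mem_filter.2 ⟨mem_univ _, hy⟩, ?_⟩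
    rw [mem_biUnion]
    exact ⟨j, mem_univ _, mem_filter.2 ⟨mem_univ _, eq_neg_of_add_eq_zero_left hj⟩⟩
  have h0 : ∀ (β : Type) (s : Finset β) (t : β → Finset (Fin m → ZMod p)),
      ∑ x' ∈ s.biUnion t, sk pr m p x' ≤ ∑ b ∈ s, ∑ x' ∈ t b, sk pr m p x' := by
    intro β s t
    classical
    induction s using Finset.induction_on with
    | empty => simp
    | insert b s hb ih =>
      rw [biUnion_insert, sum_insert hb]
      have := sum_union_inter (s₁ := t b) (s₂ := s.biUnion t) (f := fun x' => sk pr m p x')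
      have h1 : 0 ≤ ∑ x' ∈ t b ∩ s.biUnion t, sk pr m p x' :=
        sum_nonneg fun x' _ => sk_nonneg pr m p x'
      linarith
  refine (sum_le_sum_of_subset_of_nonneg hsub fun x' _ _ => sk_nonneg pr m p x').trans ?_
  refine (h0 _ _ _).trans ?_
  have h1 : ∀ y : LA pr p, ∑ x' ∈ (univ : Finset (Fin m)).biUnion (fun j =>
      univ.filter (fun x' : Fin m → ZMod p => x' j = -y.1)), sk pr m p x' ≤
      m * ((p : ℝ) - 1) ^ (m - 1) := by
    intro y
    refine (h0 _ _ _).trans ((sum_le_sum fun j _ => sum_slice pr m p j (-y.1) _).trans ?_)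
    rw [sum_const, nsmul_eq_mul, card_univ, Fintype.card_fin]
  refine (sum_le_sum fun y _ => h1 y).trans ?_
  rw [sum_const, nsmul_eq_mul]
  have h2 : ((univ.filter (fun y : LA pr p => bk pr m p x y)).card : ℝ) ≤ m := by
    have := nb_le_m pr m p x
    unfold nb at this
    exact_mod_cast (by convert this : (univ.filter (fun y : LA pr p => bk pr m p x y)).card ≤ m)
  rcases Nat.eq_zero_or_pos m with hm | hm
  · subst hm
    simp
  · have h3 : ((p : ℝ) - 1) ^ m = ((p : ℝ) - 1) ^ (m - 1) * ((p : ℝ) - 1) := by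
      rw [← pow_succ, Nat.sub_add_cancel hm]
    rw [h3]
    have h4 : (m : ℝ) ^ 2 / ((p : ℝ) - 1) * (((p : ℝ) - 1) ^ (m - 1) * ((p : ℝ) - 1)) =
        m * (m * ((p : ℝ) - 1) ^ (m - 1)) := by
      field_simp
    rw [h4]
    exact mul_le_mul_of_nonneg_right h2 (by positivity)

end loc

section glob

variable {w : ℕ} (m : ℕ) (φ : ZMod (Wp w) ≃+* ∀ i : I w, ZMod i.1)

/-- the vectors modulo the primorial as families -/
noncomputable def ψ : (Fin m → ZMod (Wp w)) ≃ (∀ i : I w, Fin m → ZMod i.1) where
  toFun t i j := φ (t j) i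
  invFun x j := φ.symm (fun i => x i j)
  left_inv t := by
    funext j
    exact φ.symm_apply_apply (t j)
  right_inv x := by
    funext i j
    have := φ.apply_symm_apply (fun i => x i j)
    exact congrFun this i

lemma gk_iff (pr : Bool) (t : Fin m → ZMod (Wp w)) (y : ∀ i : I w, LA pr i.1) :
    gk t (φ.symm fun i => (y i).1) ↔ ∀ i : I w, ¬ bk pr m i.1 (ψ m φ t i) (y i) := by
  unfold gk bk
  constructor
  · rintro h i ⟨j, hj⟩
    have h1 := (unit_iff φ _).1 (h j) i
    rw [map_add, Pi.add_apply, φ.apply_symm_apply] at h1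
    exact h1 hj
  · intro h j
    rw [unit_iff φ]
    intro i
    rw [map_add, Pi.add_apply, φ.apply_symm_apply]
    intro h1
    exact h i ⟨j, h1⟩

end glob

theorem stMIk_of (h : StAbs3) (pr : Bool) (m : ℕ) : StMIk pr m := by
  intro w K k hK hk e he0 he1 S hS hS0
  obtain ⟨φ⟩ := exists_equiv w
  classical
  have hp2 : ∀ i : I w, (2 : ℝ) ≤ (i.1 : ℝ) := fun i => by
    exact_mod_cast (mem_pz.1 i.2).2.two_le
  have hwt : ∀ t, wk pr m w t = ∏ i : I w, sk pr m i.1 (ψ m φ t i) := by
    intro t
    unfold wk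
    rw [card_AA, Fintype.card_pi, Nat.cast_prod]
    have h1 : (((AA pr w).filter (fun a => gk t a)).card : ℝ) =
        ∏ i : I w, ((univ.filter (fun y : LA pr i.1 => ¬ bk pr m i.1 (ψ m φ t i) y)).card : ℝ) := by
      have h2 := sum_AA pr φ (fun a => if gk t a then (1 : ℝ) else 0)
      rw [← sum_filter, sum_const, nsmul_eq_mul, mul_one] at h2
      rw [h2, ← sum_filter, sum_const, nsmul_eq_mul, mul_one, ← Nat.cast_prod,
        ← Fintype.card_piFinset]
      congr 2
      ext y
      simp only [mem_filter, mem_univ, true_and, Fintype.mem_piFinset]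
      exact gk_iff m φ pr t y
    rw [h1, ← prod_div_distrib]
    apply prod_congr rfl
    intro i _
    rw [sk_eq pr m i.1 _ (fun y => Classical.propDecidable _), card_LA]
    congr!
  have main := h (I w) (fun i => Fin m → ZMod i.1) (fun i => LA pr i.1) (fun i => bk pr m i.1)
    (fun i => Rk pr m i.1) (fun i => sk pr m i.1) (fun i x => sk_nonneg pr m i.1 x)
    (fun i x => sk_le_one pr m i.1 x) (fun i => ((i.1 : ℝ) - 1) ^ m) (fun i => by
      refine (sum_sk pr m i.1).symm.trans ?_
      exact univ_any _ _ _)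
    (fun i => by have := hp2 i; exact pow_pos (by linarith) _)
    (fun i => (m : ℝ) ^ 2 / ((i.1 : ℝ) - 1)) (fun i => 1 / (1 - uk pr m i.1))
    (fun i => b_ge pr m i.1)
    (fun i => by
      have := hp2 i
      exact div_nonneg (by positivity) (by linarith))
    (fun i K τ x => by
      have := onestep pr m i.1 τ x (fun y => Classical.propDecidable _)
        (fun y => Classical.propDecidable _) (Classical.propDecidable _)
      convert this)
    (fun i x => by
      have := colsum pr m i.1 x (fun y => Classical.propDecidable _)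
      convert this)
    K k hK hk (fun x => e ((ψ m φ).symm x)) (fun x => he0 _) (fun x => he1 _) S
    (by
      rw [hS]
      refine Eq.trans (Fintype.sum_equiv (ψ m φ) _ (fun x => e ((ψ m φ).symm x) * ∏ i : I w,
        sk pr m i.1 (x i)) ?_) (univ_any _ _ _)
      intro t
      show e t * wk pr m w t = e ((ψ m φ).symm (ψ m φ t)) * _
      rw [(ψ m φ).symm_apply_apply, hwt])
    hS0
  have htot : (Nat.totient (Wp w) : ℝ) ^ m = ∏ i : I w, ((i.1 : ℝ) - 1) ^ m := by
    rw [prod_pow]
    congr 1
    rw [Pool.Agent.TH881.totient_Wp]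
    unfold Vz
    have : ((Wp w : ℕ) : ℝ) = ∏ p ∈ pz w, (p : ℝ) := by
      unfold Wp
      push_cast
      rfl
    rw [this, ← prod_mul_distrib, ← prod_coe_sort (pz w)]
    apply prod_congr rfl
    intro i _
    have := hp2 i
    field_simp
  have hMM : Mk m (uk pr m) K k w = ∏ i : I w,
      (1 + (K : ℝ) * ((m : ℝ) ^ 2 / ((i.1 : ℝ) - 1)) * ((1 / (1 - uk pr m i.1)) ^ k - 1)) := by
    unfold Mk
    rw [← prod_coe_sort (pz w)]
  rw [htot, hMM]
  refine le_trans (le_of_eq ?_) main
  rw [card_AA, sum_AA pr φ]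
  congr 1
  · refine Eq.trans (sum_congr rfl ?_) (univ_any _ _ _)
    intro y _
    congr 1
    unfold rk
    refine Eq.trans (Fintype.sum_equiv (ψ m φ) _ (fun x => if ∀ i : I w,
        ¬ bk pr m i.1 (x i) (y i) then e ((ψ m φ).symm x) else 0) ?_) (univ_any _ _ _)
    intro t
    show _ = if ∀ i : I w, ¬ bk pr m i.1 (ψ m φ t i) (y i) then e ((ψ m φ).symm (ψ m φ t)) else 0
    rw [(ψ m φ).symm_apply_apply]
    have h1 := gk_iff m φ pr t y
    by_cases h2 : gk t (φ.symm fun i => (y i).1)
    · rw [if_pos h2, if_pos (h1.1 h2)]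
    · rw [if_neg h2, if_neg (fun h3 => h2 (h1.2 h3))]
  · rw [card_any]

end Pool.Agent.TH757.J3802
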