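import Mathlib

/-!
Friends-and-strangers graphs with a lollipop as the graph of persons: if the graph `X` of positions
has girth at least five and stays connected after deleting any `k` vertices, then the
friends-and-strangers graph of `X` and the lollipop with handle length `k` is connected and has
diameter at least `2 ^ (k - 1)`.
-/

set_option autoImplicit false

namespace Pool.Agent.TH757.FSLol

variable {n : ℕ}

/-- One admissible swap in the friends-and-strangers graph of `X` and `Y`. -/
def Step (X Y : SimpleGraph (Fin n)) (σ τ : Equiv.Perm (Fin n)) : Prop :=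
  ∃ a b : Fin n, X.Adj a b ∧ Y.Adj (σ a) (σ b) ∧ τ = σ * Equiv.swap a b

/-- The lollipop: the persons `0` and `k+1, k+2, ...` form a clique, and
`0, 1, ..., k` is a path. -/
def lol (n k : ℕ) : SimpleGraph (Fin n) where
  Adj a b := a ≠ b ∧ ((a.val = b.val + 1 ∧ a.val ≤ k) ∨ (b.val = a.val + 1 ∧ b.val ≤ k) ∨
    ((a.val = 0 ∨ k < a.val) ∧ (b.val = 0 ∨ k < b.val)))
  symm := by
    constructor
    intro a b h
    refine ⟨h.1.symm, ?_⟩
    rcases h.2 with h | h | h
    · exact Or.inr (Or.inl h)
    · exact Or.inl h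
    · exact Or.inr (Or.inr ⟨h.2, h.1⟩)
  loopless := by
    constructor
    intro a h
    exact h.1 rfl

/-- `X` stays connected after deleting at most `k` vertices. -/
def Robust (X : SimpleGraph (Fin n)) (k : ℕ) : Prop :=
  ∀ S : Finset (Fin n), S.card ≤ k → ∀ u v : Fin n, u ∉ S → v ∉ S →
    Relation.ReflTransGen (fun a b => X.Adj a b ∧ a ∉ S ∧ b ∉ S) u v

/-- positions of the persons `i+1, ..., k` -/
def occ (k i : ℕ) (σ : Equiv.Perm (Fin n)) : Finset (Fin n) :=
  Finset.univ.filter (fun v => i < (σ v).val ∧ (σ v).val ≤ k)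

theorem occ_card (k i : ℕ) (σ : Equiv.Perm (Fin n)) : (occ k i σ).card ≤ k := by
  have h1 : (occ k i σ).card ≤ (Finset.Icc 1 k).card := by
    apply Finset.card_le_card_of_injOn (fun v => (σ v).val)
    · intro v hv
      simp only [occ, Finset.coe_filter, Finset.mem_univ, true_and, Set.mem_ofPred_eq] at hv
      simp only [Finset.coe_Icc, Set.mem_Icc]
      omega
    · intro u _ v _ huv
      exact σ.injective (Fin.ext huv)
  simpa using h1

theorem mem_occ {k i : ℕ} {σ : Equiv.Perm (Fin n)} {v : Fin n} :
    v ∈ occ k i σ ↔ i < (σ v).val ∧ (σ v).val ≤ k := by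
  simp [occ]

/-- swapping two clique persons along a path free of handle persons -/
theorem reach_swap_aux (X : SimpleGraph (Fin n)) (k : ℕ) (S : Finset (Fin n)) (a b : Fin n)
    (ha : a ∉ S)
    (hab : Relation.ReflTransGen (fun a b => X.Adj a b ∧ a ∉ S ∧ b ∉ S) a b) :
    ∀ σ : Equiv.Perm (Fin n), (∀ v, v ∉ S → ((σ v).val = 0 ∨ k < (σ v).val)) →
      Relation.ReflTransGen (Step X (lol n k)) σ (σ * Equiv.swap a b) := by
  induction hab with
  | refl =>
    intro σ _
    rw [Equiv.swap_self]
    exact Relation.ReflTransGen.refl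
  | @tail b c hb hbc ih =>
    intro σ hσ
    obtain ⟨hadj, hbS, hcS⟩ := hbc
    have hstep : ∀ σ : Equiv.Perm (Fin n), (∀ v, v ∉ S → ((σ v).val = 0 ∨ k < (σ v).val)) →
        Step X (lol n k) σ (σ * Equiv.swap b c) := by
      intro σ hσ
      refine ⟨b, c, hadj, ⟨?_, Or.inr (Or.inr ⟨hσ b hbS, hσ c hcS⟩)⟩, rfl⟩
      intro h
      exact hadj.ne (σ.injective h)
    have hkeep : ∀ σ : Equiv.Perm (Fin n), (∀ v, v ∉ S → ((σ v).val = 0 ∨ k < (σ v).val)) →
        (∀ v, v ∉ S → (((σ * Equiv.swap b c) v).val = 0 ∨ k < ((σ * Equiv.swap b c) v).val)) := by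
      intro σ hσ v hv
      have : Equiv.swap b c v ∉ S := by
        by_cases h1 : v = b
        · rw [h1, Equiv.swap_apply_left]; exact hcS
        · by_cases h2 : v = c
          · rw [h2, Equiv.swap_apply_right]; exact hbS
          · rw [Equiv.swap_apply_of_ne_of_ne h1 h2]; exact hv
      exact hσ _ this
    by_cases hac : a = c
    · rw [hac, Equiv.swap_self]
      exact Relation.ReflTransGen.refl
    by_cases hab' : a = b
    · rw [hab']
      exact Relation.ReflTransGen.single (hstep σ hσ)
    · have key : σ * Equiv.swap a c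
          = ((σ * Equiv.swap b c) * Equiv.swap a b) * Equiv.swap b c := by
        rw [mul_assoc, mul_assoc, ← mul_assoc (Equiv.swap b c),
          Equiv.swap_mul_swap_mul_swap hab' hac, Equiv.swap_comm]
      rw [key]
      refine Relation.ReflTransGen.head (hstep σ hσ) ?_
      refine Relation.ReflTransGen.tail (ih _ (hkeep σ hσ)) ?_
      apply hstep
      intro v hv
      have hv' : Equiv.swap a b v ∉ S := by
        by_cases h1 : v = a
        · rw [h1, Equiv.swap_apply_left]; exact hbS
        · by_cases h2 : v = b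
          · rw [h2, Equiv.swap_apply_right]; exact ha
          · rw [Equiv.swap_apply_of_ne_of_ne h1 h2]; exact hv
      exact hkeep σ hσ _ hv'

theorem reach_swap (X : SimpleGraph (Fin n)) (k : ℕ) (hX : Robust X k)
    (σ : Equiv.Perm (Fin n)) (a b : Fin n)
    (ha : ¬ (0 < (σ a).val ∧ (σ a).val ≤ k)) (hb : ¬ (0 < (σ b).val ∧ (σ b).val ≤ k)) :
    Relation.ReflTransGen (Step X (lol n k)) σ (σ * Equiv.swap a b) := by
  have ha' : a ∉ occ k 0 σ := fun h => ha (mem_occ.1 h)
  have hb' : b ∉ occ k 0 σ := fun h => hb (mem_occ.1 h)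
  refine reach_swap_aux X k (occ k 0 σ) a b ha' (hX _ (occ_card k 0 σ) a b ha' hb') σ ?_
  intro v hv
  rw [mem_occ] at hv
  omega

/-- two states with the handle persons in the same places are connected -/
theorem reach_agree (X : SimpleGraph (Fin n)) (k : ℕ) (hX : Robust X k) :
    ∀ m : ℕ, ∀ σ τ : Equiv.Perm (Fin n),
      (Finset.univ.filter (fun v => σ v ≠ τ v)).card ≤ m →
      (∀ v, 0 < (σ v).val → (σ v).val ≤ k → τ v = σ v) →
      Relation.ReflTransGen (Step X (lol n k)) σ τ := by
  intro m
  induction m with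
  | zero =>
    intro σ τ hm _
    have h0 : (Finset.univ.filter (fun v => σ v ≠ τ v)) = ∅ :=
      Finset.card_eq_zero.1 (Nat.le_zero.1 hm)
    have : σ = τ := by
      ext v
      by_contra hne
      have : v ∈ (Finset.univ.filter (fun v => σ v ≠ τ v)) := by
        simp only [Finset.mem_filter, Finset.mem_univ, true_and]
        intro h
        exact hne (by rw [h])
      rw [h0] at this
      simp at this
    rw [this]
  | succ m ih =>
    intro σ τ hm hag
    by_cases hst : σ = τ
    · rw [hst]
    have hex : ∃ v, σ v ≠ τ v := by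
      by_contra h
      push Not at h
      exact hst (Equiv.ext h)
    obtain ⟨v, hv⟩ := hex
    set w : Fin n := σ.symm (τ v) with hw
    have hσw : σ w = τ v := by rw [hw]; simp
    have hwv : w ≠ v := by
      intro h
      rw [h] at hσw
      exact hv hσw
    have hvF : ¬ (0 < (σ v).val ∧ (σ v).val ≤ k) := by
      intro h
      exact hv (hag v h.1 h.2).symm
    have hwF : ¬ (0 < (σ w).val ∧ (σ w).val ≤ k) := by
      intro h
      have h1 := hag w h.1 h.2
      rw [hσw] at h1
      exact hwv (τ.injective h1)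
    refine Relation.ReflTransGen.trans (reach_swap X k hX σ v w hvF hwF) ?_
    apply ih
    · have hlt : (Finset.univ.filter (fun u => (σ * Equiv.swap v w) u ≠ τ u)).card
          < (Finset.univ.filter (fun u => σ u ≠ τ u)).card := by
        apply Finset.card_lt_card
        constructor
        · intro u hu
          rw [Finset.mem_filter] at hu ⊢
          refine ⟨Finset.mem_univ _, ?_⟩
          replace hu := hu.2
          rw [Equiv.Perm.mul_apply] at hu
          by_cases h1 : u = v
          · rw [h1, Equiv.swap_apply_left, hσw] at hu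
            exact absurd rfl hu
          · by_cases h2 : u = w
            · rw [h2, hσw]
              intro h3
              exact hwv (τ.injective h3).symm
            · rwa [Equiv.swap_apply_of_ne_of_ne h1 h2] at hu
        · intro hsub
          have hvm : v ∈ (Finset.univ.filter (fun u => σ u ≠ τ u)) := by
            simp only [Finset.mem_filter, Finset.mem_univ, true_and]
            exact hv
          have h3 := (Finset.mem_filter.1 (hsub hvm)).2
          rw [Equiv.Perm.mul_apply, Equiv.swap_apply_left] at h3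
          exact h3 hσw
      omega
    · intro u hu1 hu2
      simp only [Equiv.Perm.mul_apply] at hu1 hu2 ⊢
      by_cases h1 : u = v
      · rw [h1, Equiv.swap_apply_left] at hu1 hu2
        exact absurd ⟨hu1, hu2⟩ hwF
      · by_cases h2 : u = w
        · rw [h2, Equiv.swap_apply_right] at hu1 hu2
          exact absurd ⟨hu1, hu2⟩ hvF
        · rw [Equiv.swap_apply_of_ne_of_ne h1 h2] at hu1 hu2 ⊢
          exact hag u hu1 hu2

/-- person `i` can be brought to `w` with the persons `i+1, ..., k` left in place -/
theorem place (X : SimpleGraph (Fin n)) (k : ℕ) (hk : k < n) (hX : Robust X k) :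
    ∀ i : ℕ, i ≤ k → ∀ (σ : Equiv.Perm (Fin n)) (w : Fin n),
      ¬ (i < (σ w).val ∧ (σ w).val ≤ k) →
      ∃ τ, Relation.ReflTransGen (Step X (lol n k)) σ τ ∧ (τ w).val = i ∧
        ∀ v, i < (σ v).val → (σ v).val ≤ k → τ v = σ v := by
  intro i
  induction i with
  | zero =>
    intro _ σ w hw
    have hn : 0 < n := by omega
    set a : Fin n := σ.symm ⟨0, hn⟩ with ha
    have hσa : σ a = ⟨0, hn⟩ := by rw [ha]; simp
    refine ⟨σ * Equiv.swap a w, reach_swap X k hX σ a w ?_ hw, ?_, ?_⟩
    · rw [hσa]; simp
    · rw [Equiv.Perm.mul_apply, Equiv.swap_apply_right, hσa]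
    · intro v hv1 hv2
      rw [Equiv.Perm.mul_apply, Equiv.swap_apply_of_ne_of_ne]
      · intro h
        rw [h, hσa] at hv1
        simp at hv1
      · intro h
        rw [h] at hv1 hv2
        exact hw ⟨hv1, hv2⟩
  | succ i ih =>
    intro hik σ w hw
    have hi1 : i + 1 < n := by omega
    set x : Fin n := σ.symm ⟨i + 1, hi1⟩ with hx
    have hσx : σ x = ⟨i + 1, hi1⟩ := by rw [hx]; simp
    have hxS : x ∉ occ k (i + 1) σ := by
      rw [mem_occ, hσx]
      simp
    have hwS : w ∉ occ k (i + 1) σ := by
      rw [mem_occ]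
      exact hw
    have hpath := hX _ (occ_card k (i + 1) σ) x w hxS hwS
    clear hwS hw
    induction hpath with
    | refl =>
      exact ⟨σ, Relation.ReflTransGen.refl, by rw [hσx], fun v _ _ => rfl⟩
    | @tail b c _ hbc ih2 =>
      obtain ⟨hadj, hbS, hcS⟩ := hbc
      obtain ⟨τ, hτ1, hτ2, hτ3⟩ := ih2
      -- bring person i to c
      have hcτ : ¬ (i < (τ c).val ∧ (τ c).val ≤ k) := by
        rintro ⟨h1, h2⟩
        by_cases h3 : (τ c).val = i + 1
        · have : τ c = τ b := Fin.ext (by rw [h3, hτ2])
          exact hadj.ne (τ.injective this).symm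
        · -- person τ c is in the range i+2..k, at position c for σ as well
          set u : Fin n := σ.symm (τ c) with hu
          have hσu : σ u = τ c := by rw [hu]; simp
          have h4 : τ u = σ u := hτ3 u (by rw [hσu]; omega) (by rw [hσu]; exact h2)
          rw [hσu] at h4
          have huc : u = c := τ.injective h4
          rw [huc] at hσu
          apply hcS
          rw [mem_occ, hσu]
          omega
      obtain ⟨ρ, hρ1, hρ2, hρ3⟩ := ih (by omega) τ c hcτ
      have hρb : ρ b = τ b := hρ3 b (by rw [hτ2]; omega) (by rw [hτ2]; exact hik)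
      refine ⟨ρ * Equiv.swap b c, ?_, ?_, ?_⟩
      · refine (hτ1.trans hρ1).tail ⟨b, c, hadj, ⟨?_, Or.inl ⟨?_, ?_⟩⟩, rfl⟩
        · intro h
          exact hadj.ne (ρ.injective h)
        · rw [hρb, hτ2, hρ2]
        · rw [hρb, hτ2]; exact hik
      · rw [Equiv.Perm.mul_apply, Equiv.swap_apply_right, hρb, hτ2]
      · intro v hv1 hv2
        have h5 : τ v = σ v := hτ3 v hv1 hv2
        have h6 : ρ v = τ v := hρ3 v (by rw [h5]; omega) (by rw [h5]; exact hv2)
        have hvb : v ≠ b := by
          intro h
          apply hbS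
          rw [mem_occ, ← h]
          exact ⟨hv1, hv2⟩
        have hvc : v ≠ c := by
          intro h
          apply hcS
          rw [mem_occ, ← h]
          exact ⟨hv1, hv2⟩
        rw [Equiv.Perm.mul_apply, Equiv.swap_apply_of_ne_of_ne hvb hvc, h6, h5]

/-- all states are connected to each other -/
theorem reach_all (X : SimpleGraph (Fin n)) (k : ℕ) (hk : k < n) (hX : Robust X k)
    (σ τ : Equiv.Perm (Fin n)) :
    Relation.ReflTransGen (Step X (lol n k)) σ τ := by
  have main : ∀ j : ℕ, j ≤ k → ∃ ρ, Relation.ReflTransGen (Step X (lol n k)) σ ρ ∧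
      ∀ v, k - j < (ρ v).val → (ρ v).val ≤ k → τ v = ρ v := by
    intro j
    induction j with
    | zero =>
      intro _
      exact ⟨σ, Relation.ReflTransGen.refl, fun v h1 h2 => by omega⟩
    | succ j ih =>
      intro hj
      obtain ⟨ρ, hρ1, hρ2⟩ := ih (by omega)
      have hi1 : k - j < n := by omega
      set w : Fin n := τ.symm ⟨k - j, hi1⟩ with hw
      have hτw : τ w = ⟨k - j, hi1⟩ := by rw [hw]; simp
      have hρw : ¬ (k - j < (ρ w).val ∧ (ρ w).val ≤ k) := by
        rintro ⟨h1, h2⟩
        have := hρ2 w h1 h2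
        rw [← this, hτw] at h1
        simp at h1
      obtain ⟨θ, hθ1, hθ2, hθ3⟩ := place X k hk hX (k - j) (by omega) ρ w hρw
      refine ⟨θ, hρ1.trans hθ1, ?_⟩
      intro v hv1 hv2
      by_cases h1 : (θ v).val = k - j
      · have h2 : θ v = θ w := Fin.ext (by rw [h1, hθ2])
        have h3 : v = w := θ.injective h2
        rw [h3, hτw]
        exact Fin.ext hθ2.symm
      · set u : Fin n := ρ.symm (θ v) with hu
        have hρu : ρ u = θ v := by rw [hu]; simp
        have h4 : θ u = ρ u := hθ3 u (by rw [hρu]; omega) (by rw [hρu]; exact hv2)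
        rw [hρu] at h4
        have huv : u = v := θ.injective h4
        rw [huv] at hρu
        have h5 := hρ2 v (by rw [hρu]; omega) (by rw [hρu]; exact hv2)
        rw [h5, hρu]
  obtain ⟨ρ, hρ1, hρ2⟩ := main k le_rfl
  refine hρ1.trans (reach_agree X k hX _ ρ τ le_rfl ?_)
  intro v h1 h2
  exact hρ2 v (by omega) h2

end Pool.Agent.TH757.FSLol
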