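import Mathlib
import Pool.Agent.TH757.FSLol

/-!
Exponential lower bound for the number of swaps.
-/

set_option autoImplicit false

namespace Pool.Agent.TH757.FSLol

variable {n : ℕ}

/-- `X` has neither triangles nor four-cycles. -/
def Girth5 (X : SimpleGraph (Fin n)) : Prop :=
  (∀ x y w : Fin n, X.Adj x y → X.Adj y w → ¬ X.Adj x w) ∧
  (∀ x y w u : Fin n, X.Adj x y → X.Adj y w → X.Adj x u → X.Adj u w → x ≠ w → u = y)

/-- what happens when a person moves from `u` to `v` -/
theorem move {X Y : SimpleGraph (Fin n)} {σ τ : Equiv.Perm (Fin n)}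
    (h : τ = σ ∨ Step X Y σ τ) {u v : Fin n} (huv : u ≠ v) (hm : τ v = σ u) :
    X.Adj u v ∧ Y.Adj (σ u) (σ v) ∧ τ u = σ v := by
  rcases h with h | ⟨a, b, hab, hY, h⟩
  · rw [h] at hm
    exact absurd (σ.injective hm).symm huv
  · rw [h, Equiv.Perm.mul_apply] at hm
    have h1 : Equiv.swap a b v = u := σ.injective hm
    by_cases h2 : v = a
    · rw [h2, Equiv.swap_apply_left] at h1
      rw [← h1, h2]
      refine ⟨hab.symm, hY.symm, ?_⟩
      rw [h, Equiv.Perm.mul_apply, Equiv.swap_apply_right]
    · by_cases h3 : v = b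
      · rw [h3, Equiv.swap_apply_right] at h1
        rw [← h1, h3]
        refine ⟨hab, hY, ?_⟩
        rw [h, Equiv.Perm.mul_apply, Equiv.swap_apply_left]
      · rw [Equiv.swap_apply_of_ne_of_ne h2 h3] at h1
        exact absurd h1.symm huv

/-- The history of person `i+1` while it only swaps with person `i`. -/
theorem turns {X Y : SimpleGraph (Fin n)} (s : ℕ → Equiv.Perm (Fin n)) (i c : ℕ)
    (hs : ∀ t, s (t + 1) = s t ∨ Step X Y (s t) (s (t + 1)))
    (hB : ∀ (a b : ℕ) (x y w : Fin n), a ≤ b →
      (∀ t, a ≤ t → t ≤ b → (s t y).val = i + 1) →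
      (s a x).val = i → (s b w).val = i → X.Adj x y → X.Adj y w → x ≠ w → a + c ≤ b)
    (a b : ℕ) (A : Fin n → Prop)
    (hA : ∀ t, a ≤ t → t ≤ b → ∀ u, (s t u).val = i + 1 → A u)
    (H : ∀ t, a ≤ t → t < b → ∀ u v, (s t u).val = i + 1 → (s (t + 1) v).val = i + 1 → u ≠ v →
      (s t v).val = i)
    (x : Fin n) (hx : (s a x).val = i + 1) :
    ∀ t, a ≤ t → t ≤ b →
      ((∀ r, a ≤ r → r ≤ t → (s r x).val = i + 1) ∨
       (∃ (q : ℕ) (u v : Fin n), a ≤ q ∧ q ≤ t ∧ X.Adj u v ∧ (u = x ∨ v = x) ∧
          (s q v).val = i ∧ ∀ r, q ≤ r → r ≤ t → (s r u).val = i + 1) ∨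
       (∃ (q : ℕ) (u v : Fin n), a + c ≤ q ∧ q ≤ t ∧ X.Adj u v ∧
          ((u = x ∨ (X.Adj x u ∧ A u)) ∨ (v = x ∨ (X.Adj x v ∧ A v))) ∧
          (s q v).val = i ∧ ∀ r, q ≤ r → r ≤ t → (s r u).val = i + 1) ∨
       a + 2 * c ≤ t) := by
  intro t hat
  induction t, hat using Nat.le_induction with
  | base =>
    intro _
    left
    intro r h1 h2
    have : r = a := le_antisymm h2 h1
    rw [this]; exact hx
  | succ t hat ih =>
    intro htb
    -- extend a stay
    have hext : ∀ (q : ℕ) (u : Fin n), (∀ r, q ≤ r → r ≤ t → (s r u).val = i + 1) →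
        (s (t + 1) u).val = i + 1 → (∀ r, q ≤ r → r ≤ t + 1 → (s r u).val = i + 1) := by
      intro q u h1 h2 r h3 h4
      rcases Nat.lt_or_ge t r with h5 | h5
      · have : r = t + 1 := by omega
        rw [this]; exact h2
      · exact h1 r h3 h5
    -- a genuine move
    have hmv : ∀ u : Fin n, (s t u).val = i + 1 → (s (t + 1) u).val ≠ i + 1 →
        ∃ v, u ≠ v ∧ X.Adj u v ∧ (s t v).val = i ∧ (s (t + 1) v).val = i + 1 ∧
          (s (t + 1) u).val = i := by
      intro u h1 h2
      set v : Fin n := (s (t + 1)).symm (s t u) with hv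
      have hv' : s (t + 1) v = s t u := by rw [hv]; simp
      have huv : u ≠ v := by
        intro h
        rw [← h] at hv'
        rw [hv'] at h2
        exact h2 h1
      obtain ⟨h3, _, h5⟩ := move (hs t) huv hv'
      have h6 : (s t v).val = i := H t hat (by omega) u v h1 (by rw [hv']; exact h1) huv
      refine ⟨v, huv, h3, h6, by rw [hv']; exact h1, by rw [h5]; exact h6⟩
    have hone : ∀ v : Fin n, (s (t + 1) v).val = i + 1 →
        ∀ r, t + 1 ≤ r → r ≤ t + 1 → (s r v).val = i + 1 := by
      intro v h1 r h2 h3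
      have : r = t + 1 := le_antisymm h3 h2
      rw [this]; exact h1
    rcases ih (by omega) with h | h | h | h
    · -- never moved
      have hxt : (s t x).val = i + 1 := h t hat le_rfl
      by_cases h2 : (s (t + 1) x).val = i + 1
      · left
        exact hext a x h h2
      · obtain ⟨v, _, h3, _, h5, h6⟩ := hmv x hxt h2
        right; left
        exact ⟨t + 1, v, x, by omega, le_rfl, h3.symm, Or.inr rfl, h6, hone v h5⟩
    · obtain ⟨q, u, v, h1, h2, h3, h4, h5, h6⟩ := h
      have hut : (s t u).val = i + 1 := h6 t h2 le_rfl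
      by_cases h7 : (s (t + 1) u).val = i + 1
      · right; left
        exact ⟨q, u, v, h1, by omega, h3, h4, h5, hext q u h6 h7⟩
      · obtain ⟨z, _, h8, h9, h10, h11⟩ := hmv u hut h7
        by_cases hzv : z = v
        · right; left
          refine ⟨t + 1, z, u, by omega, le_rfl, h8.symm, ?_, h11, hone z h10⟩
          rw [hzv]
          exact h4.symm
        · right; right; left
          have h12 := hB q t v u z h2 h6 h5 h9 h3.symm h8 (fun h => hzv h.symm)
          refine ⟨t + 1, z, u, by omega, le_rfl, h8.symm, ?_, h11, hone z h10⟩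
          right
          rcases h4 with h4 | h4
          · left; exact h4
          · right
            rw [h4] at h3
            exact ⟨h3.symm, hA t hat (by omega) u hut⟩
    · obtain ⟨q, u, v, h1, h2, h3, h4, h5, h6⟩ := h
      have hut : (s t u).val = i + 1 := h6 t h2 le_rfl
      by_cases h7 : (s (t + 1) u).val = i + 1
      · right; right; left
        exact ⟨q, u, v, h1, by omega, h3, h4, h5, hext q u h6 h7⟩
      · obtain ⟨z, _, h8, h9, h10, h11⟩ := hmv u hut h7
        by_cases hzv : z = v
        · right; right; left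
          refine ⟨t + 1, z, u, by omega, le_rfl, h8.symm, ?_, h11, hone z h10⟩
          rw [hzv]
          exact h4.symm
        · right; right; right
          have h12 := hB q t v u z h2 h6 h5 h9 h3.symm h8 (fun h => hzv h.symm)
          omega
    · right; right; right
      omega

/-- Neighbours of a handle person in the lollipop. -/
theorem lol_adj_handle {k : ℕ} {p q : Fin n} (hp : 0 < p.val) (hpk : p.val ≤ k)
    (h : (lol n k).Adj p q) : p.val = q.val + 1 ∨ q.val = p.val + 1 := by
  rcases h with ⟨_, h | h | h⟩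
  · exact Or.inl h.1
  · exact Or.inr h.1
  · omega

/-- A turn of person `i+1` costs at least `2 ^ i` swaps. -/
theorem turn_cost {X : SimpleGraph (Fin n)} (hX : Girth5 X) (k : ℕ)
    (s : ℕ → Equiv.Perm (Fin n))
    (hs : ∀ t, s (t + 1) = s t ∨ Step X (lol n k) (s t) (s (t + 1))) :
    ∀ i : ℕ, i < k → ∀ (a b : ℕ) (x y w : Fin n), a ≤ b →
      (∀ t, a ≤ t → t ≤ b → (s t y).val = i + 1) →
      (s a x).val = i → (s b w).val = i → X.Adj x y → X.Adj y w → x ≠ w → a + 2 ^ i ≤ b := by
  intro i
  induction i with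
  | zero =>
    intro _ a b x y w hab _ h1 h2 _ _ hne
    rcases Nat.lt_or_ge a b with h | h
    · simpa using h
    · have : a = b := le_antisymm hab h
      rw [this] at h1
      exact absurd ((s b).injective (Fin.ext (by rw [h1, h2]))) hne
  | succ i ih =>
    intro hik a b x y w hab hy h1 h2 hxy hyw hne
    have ih' := ih (by omega)
    have hT := turns s i (2 ^ i) hs ih' a b (fun u => u ≠ y)
      (by
        intro t ht1 ht2 u hu huy
        have := hy t ht1 ht2
        rw [huy] at hu
        omega)
      (by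
        intro t ht1 ht2 u v hu hv huv
        have heq : s (t + 1) v = s t u := Fin.ext (by rw [hu, hv])
        obtain ⟨_, h4, h5⟩ := move (hs t) huv heq
        rcases lol_adj_handle (by omega) (by omega) h4 with h6 | h6
        · omega
        · exfalso
          have h7 : s t v = s t y := Fin.ext (by rw [h6, hu, hy t ht1 (by omega)])
          have h8 : v = y := (s t).injective h7
          have h9 := hy (t + 1) (by omega) (by omega)
          rw [h8] at hv
          omega)
      x h1 b hab le_rfl
    rcases hT with h | h | h | h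
    · exfalso
      have h3 := h b hab le_rfl
      exact hne ((s b).injective (Fin.ext (by rw [h3, h2])))
    · exfalso
      obtain ⟨q, u, v, h3, h4, h5, h6, h7, h8⟩ := h
      have h9 : u = w := (s b).injective (Fin.ext (by rw [h8 b h4 le_rfl, h2]))
      rcases h6 with h6 | h6
      · exact hne (h6.symm.trans h9)
      · rw [h6, h9] at h5
        exact hX.1 x y w hxy hyw h5.symm
    · exfalso
      obtain ⟨q, u, v, h3, h4, h5, h6, h7, h8⟩ := h
      have h9 : u = w := (s b).injective (Fin.ext (by rw [h8 b h4 le_rfl, h2]))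
      rcases h6 with (h6 | h6) | (h6 | h6)
      · exact hne (h6.symm.trans h9)
      · rw [h9] at h6
        exact hX.1 x y w hxy hyw h6.1
      · rw [h6, h9] at h5
        exact hX.1 x y w hxy hyw h5.symm
      · rw [h9] at h5
        exact h6.2 (hX.2 x y w v hxy hyw h6.1 h5.symm hne)
    · rw [pow_succ]
      omega

/-- Moving person `k` from `x` to a vertex at distance at least two costs at least
`2 ^ (k - 1)` swaps. -/
theorem top_cost {X : SimpleGraph (Fin n)} (hX : Girth5 X) (k : ℕ)
    (s : ℕ → Equiv.Perm (Fin n))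
    (hs : ∀ t, s (t + 1) = s t ∨ Step X (lol n (k + 1)) (s t) (s (t + 1)))
    (L : ℕ) (x w : Fin n) (hx : (s 0 x).val = k + 1) (hw : (s L w).val = k + 1)
    (hne : x ≠ w) (hna : ¬ X.Adj x w) : 2 ^ k ≤ L := by
  have hT := turns s k (2 ^ k) hs (turn_cost hX (k + 1) s hs k (by omega)) 0 L (fun _ => True)
    (fun _ _ _ _ _ => trivial)
    (by
      intro t _ _ u v hu hv huv
      have heq : s (t + 1) v = s t u := Fin.ext (by rw [hu, hv])
      obtain ⟨_, h4, h5⟩ := move (hs t) huv heq
      rcases h4 with ⟨_, h6 | h6 | h6⟩ <;> omega)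
    x hx L (Nat.zero_le _) le_rfl
  rcases hT with h | h | h | h
  · exfalso
    have h3 := h L (Nat.zero_le _) le_rfl
    exact hne ((s L).injective (Fin.ext (by rw [h3, hw])))
  · exfalso
    obtain ⟨q, u, v, h3, h4, h5, h6, h7, h8⟩ := h
    have h9 : u = w := (s L).injective (Fin.ext (by rw [h8 L h4 le_rfl, hw]))
    rcases h6 with h6 | h6
    · exact hne (h6.symm.trans h9)
    · rw [h6, h9] at h5
      exact hna h5.symm
  · obtain ⟨q, u, v, h3, h4, h5, h6, h7, h8⟩ := h
    omega
  · omega

end Pool.Agent.TH757.FSLol
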