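import Mathlib
import Pool.Agent.TH757.FSLower

/-!
The incidence graph of the points and non-vertical lines of an affine plane over `ZMod p`.
-/

set_option autoImplicit false

namespace Pool.Agent.TH757.FSLol

/-- vertices of the incidence graph: points `(x, y)` and lines `(m, b)` -/
abbrev PV (p : ℕ) : Type := (ZMod p × ZMod p) ⊕ (ZMod p × ZMod p)

/-- incidence relation `y = m x + b` -/
def inc (p : ℕ) (P L : ZMod p × ZMod p) : Prop := P.2 = L.1 * P.1 + L.2

/-- the incidence graph -/
def plane (p : ℕ) : SimpleGraph (PV p) where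
  Adj u v := (∃ P L, u = Sum.inl P ∧ v = Sum.inr L ∧ inc p P L) ∨
    (∃ P L, v = Sum.inl P ∧ u = Sum.inr L ∧ inc p P L)
  symm := by
    constructor
    intro u v h
    exact h.symm
  loopless := by
    constructor
    intro u h
    rcases h with ⟨P, L, h1, h2, _⟩ | ⟨P, L, h1, h2, _⟩
    · rw [h1] at h2; exact absurd h2 (by simp)
    · rw [h1] at h2; exact absurd h2 (by simp)

theorem plane_ll {p : ℕ} (P Q : ZMod p × ZMod p) : ¬ (plane p).Adj (Sum.inl P) (Sum.inl Q) := by
  rintro (⟨P, L, h1, h2, _⟩ | ⟨P, L, h1, h2, _⟩) <;> simp at h2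

theorem plane_rr {p : ℕ} (P Q : ZMod p × ZMod p) : ¬ (plane p).Adj (Sum.inr P) (Sum.inr Q) := by
  rintro (⟨P, L, h1, h2, _⟩ | ⟨P, L, h1, h2, _⟩) <;> simp at h1

theorem plane_lr {p : ℕ} (P L : ZMod p × ZMod p) :
    (plane p).Adj (Sum.inl P) (Sum.inr L) ↔ inc p P L := by
  constructor
  · rintro (⟨P', L', h1, h2, h3⟩ | ⟨P', L', h1, h2, _⟩)
    · rw [Sum.inl.inj h1, Sum.inr.inj h2]; exact h3
    · simp at h1
  · intro h
    exact Or.inl ⟨P, L, rfl, rfl, h⟩

theorem plane_rl {p : ℕ} (P L : ZMod p × ZMod p) :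
    (plane p).Adj (Sum.inr L) (Sum.inl P) ↔ inc p P L := by
  rw [SimpleGraph.adj_comm, plane_lr]

theorem plane_tri {p : ℕ} (x y w : PV p) (h1 : (plane p).Adj x y) (h2 : (plane p).Adj y w) :
    ¬ (plane p).Adj x w := by
  intro h3
  rcases x with x | x <;> rcases y with y | y
  · exact plane_ll _ _ h1
  · rcases w with w | w
    · exact plane_ll _ _ h3
    · exact plane_rr _ _ h2
  · rcases w with w | w
    · exact plane_ll _ _ h2
    · exact plane_rr _ _ h3
  · exact plane_rr _ _ h1

theorem two_points {p : ℕ} [Fact p.Prime] {P Q L M : ZMod p × ZMod p}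
    (h1 : inc p P L) (h2 : inc p Q L) (h3 : inc p P M) (h4 : inc p Q M) (hne : P ≠ Q) :
    M = L := by
  obtain ⟨a, c⟩ := P
  obtain ⟨a', c'⟩ := Q
  obtain ⟨m, b⟩ := L
  obtain ⟨m', b'⟩ := M
  simp only [inc] at h1 h2 h3 h4
  have h5 : (m' - m) * (a - a') = 0 := by linear_combination h1 - h2 - h3 + h4
  rcases mul_eq_zero.1 h5 with h6 | h6
  · have hm : m' = m := sub_eq_zero.1 h6
    subst hm
    have hb : b' = b := by linear_combination h1 - h3
    rw [hb]
  · exfalso
    have ha : a = a' := sub_eq_zero.1 h6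
    subst ha
    apply hne
    rw [h1, h2]

theorem plane_four {p : ℕ} [Fact p.Prime] (x y w u : PV p) (h1 : (plane p).Adj x y)
    (h2 : (plane p).Adj y w) (h3 : (plane p).Adj x u) (h4 : (plane p).Adj u w) (hne : x ≠ w) :
    u = y := by
  rcases x with x | x
  · rcases y with y | y
    · exact absurd h1 (plane_ll _ _)
    rcases u with u | u
    · exact absurd h3 (plane_ll _ _)
    rcases w with w | w
    · rw [plane_lr] at h1 h3
      rw [plane_rl] at h2 h4
      have hxw : x ≠ w := fun h => hne (by rw [h])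
      rw [two_points h1 h2 h3 h4 hxw]
    · exact absurd h2 (plane_rr _ _)
  · rcases y with y | y
    · rcases u with u | u
      · rcases w with w | w
        · exact absurd h2 (plane_ll _ _)
        · rw [plane_rl] at h1 h3
          rw [plane_lr] at h2 h4
          by_contra huy
          have huy' : u ≠ y := fun h => huy (by rw [h])
          have := two_points h3 h1 h4 h2 huy'
          exact hne (by rw [this])
      · exact absurd h3 (plane_rr _ _)
    · exact absurd h1 (plane_rr _ _)

/-- the relation of walking inside the complement of `S` -/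
def Rel (p : ℕ) (S : Finset (PV p)) (a b : PV p) : Prop := (plane p).Adj a b ∧ a ∉ S ∧ b ∉ S

theorem exists_not_image {p : ℕ} [Fact p.Prime] (S : Finset (PV p)) (hS : S.card < p)
    (g : PV p → ZMod p) : ∃ y : ZMod p, ∀ v ∈ S, g v ≠ y := by
  by_contra h
  push Not at h
  have h1 : (Finset.univ : Finset (ZMod p)) ⊆ S.image g := by
    intro y _
    obtain ⟨v, hv, hgv⟩ := h y
    exact Finset.mem_image.2 ⟨v, hv, hgv⟩
  have h2 := Finset.card_le_card h1
  rw [Finset.card_univ, ZMod.card] at h2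
  have h3 : (S.image g).card ≤ S.card := Finset.card_image_le
  omega

theorem conn_points {p : ℕ} [Fact p.Prime] (hp : 2 < p) (S : Finset (PV p)) (hS : S.card < p)
    (P Q : ZMod p × ZMod p) (hP : Sum.inl P ∉ S) (hQ : Sum.inl Q ∉ S) :
    Relation.ReflTransGen (Rel p S) (Sum.inl P) (Sum.inl Q) := by
  obtain ⟨x1, y1⟩ := P
  obtain ⟨x2, y2⟩ := Q
  -- a third vertical line
  have hx3 : ∃ x3 : ZMod p, x3 ≠ x1 ∧ x3 ≠ x2 := by
    by_contra h
    push Not at h
    have h1 : (Finset.univ : Finset (ZMod p)) ⊆ {x1, x2} := by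
      intro y _
      by_cases hy : y = x1
      · simp [hy]
      · simp [h y hy]
    have h2 := Finset.card_le_card h1
    rw [Finset.card_univ, ZMod.card] at h2
    have h3 : ({x1, x2} : Finset (ZMod p)).card ≤ 2 := Finset.card_le_two
    omega
  obtain ⟨x3, h31, h32⟩ := hx3
  obtain ⟨y, hy⟩ := exists_not_image S hS
    (fun v => Sum.elim (fun P => P.2) (fun L => L.1 * x3 + L.2) v)
  have h31' : x3 - x1 ≠ 0 := sub_ne_zero.2 h31
  have h32' : x3 - x2 ≠ 0 := sub_ne_zero.2 h32
  set m1 : ZMod p := (y - y1) / (x3 - x1) with hm1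
  set m2 : ZMod p := (y - y2) / (x3 - x2) with hm2
  have e1 : m1 * (x3 - x1) = y - y1 := by rw [hm1]; field_simp
  have e2 : m2 * (x3 - x2) = y - y2 := by rw [hm2]; field_simp
  have hR : (Sum.inl (x3, y) : PV p) ∉ S := fun h => hy _ h rfl
  have hL1 : (Sum.inr (m1, y1 - m1 * x1) : PV p) ∉ S := by
    intro h
    apply hy _ h
    simp only [Sum.elim_inr]
    linear_combination e1
  have hL2 : (Sum.inr (m2, y2 - m2 * x2) : PV p) ∉ S := by
    intro h
    apply hy _ h
    simp only [Sum.elim_inr]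
    linear_combination e2
  have s1 : Rel p S (Sum.inl (x1, y1)) (Sum.inr (m1, y1 - m1 * x1)) := by
    refine ⟨?_, hP, hL1⟩
    rw [plane_lr, inc]
    ring
  have s2 : Rel p S (Sum.inr (m1, y1 - m1 * x1)) (Sum.inl (x3, y)) := by
    refine ⟨?_, hL1, hR⟩
    rw [plane_rl, inc]
    linear_combination -e1
  have s3 : Rel p S (Sum.inl (x3, y)) (Sum.inr (m2, y2 - m2 * x2)) := by
    refine ⟨?_, hR, hL2⟩
    rw [plane_lr, inc]
    linear_combination -e2
  have s4 : Rel p S (Sum.inr (m2, y2 - m2 * x2)) (Sum.inl (x2, y2)) := by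
    refine ⟨?_, hL2, hQ⟩
    rw [plane_rl, inc]
    ring
  exact (((Relation.ReflTransGen.single s1).tail s2).tail s3).tail s4

theorem to_point {p : ℕ} [Fact p.Prime] (S : Finset (PV p)) (hS : S.card < p) (v : PV p)
    (hv : v ∉ S) : ∃ P, Sum.inl P ∉ S ∧ Relation.ReflTransGen (Rel p S) v (Sum.inl P) ∧
      Relation.ReflTransGen (Rel p S) (Sum.inl P) v := by
  rcases v with P | L
  · exact ⟨P, hv, Relation.ReflTransGen.refl, Relation.ReflTransGen.refl⟩
  · obtain ⟨m, b⟩ := L
    obtain ⟨x, hx⟩ := exists_not_image S hS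
      (fun v => Sum.elim (fun P => P.1) (fun L => L.1) v)
    have hP : (Sum.inl (x, m * x + b) : PV p) ∉ S := fun h => hx _ h rfl
    refine ⟨(x, m * x + b), hP, Relation.ReflTransGen.single ⟨?_, hv, hP⟩,
      Relation.ReflTransGen.single ⟨?_, hP, hv⟩⟩
    · rw [plane_rl, inc]
    · rw [plane_lr, inc]

theorem conn_all {p : ℕ} [Fact p.Prime] (hp : 2 < p) (S : Finset (PV p)) (hS : S.card < p)
    (u v : PV p) (hu : u ∉ S) (hv : v ∉ S) : Relation.ReflTransGen (Rel p S) u v := by
  obtain ⟨P, hP, h1, _⟩ := to_point S hS u hu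
  obtain ⟨Q, hQ, _, h2⟩ := to_point S hS v hv
  exact (h1.trans (conn_points hp S hS P Q hP hQ)).trans h2

/-- The graph transported to `Fin n`. -/
theorem exists_graph (p : ℕ) [Fact p.Prime] (hp : 2 < p) :
    ∃ X : SimpleGraph (Fin (2 * p ^ 2)), Girth5 X ∧ Robust X (p - 1) ∧
      ∃ x w : Fin (2 * p ^ 2), x ≠ w ∧ ¬ X.Adj x w := by
  have hcard : Fintype.card (PV p) = 2 * p ^ 2 := by
    rw [Fintype.card_sum, Fintype.card_prod, ZMod.card]
    ring
  let e : PV p ≃ Fin (2 * p ^ 2) := Fintype.equivFinOfCardEq hcard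
  refine ⟨(plane p).comap e.symm, ⟨?_, ?_⟩, ?_, ?_⟩
  · intro x y w h1 h2
    exact plane_tri _ _ _ h1 h2
  · intro x y w u h1 h2 h3 h4 hne
    exact e.symm.injective (plane_four _ _ _ _ h1 h2 h3 h4 (fun h => hne (e.symm.injective h)))
  · intro S hS u v hu hv
    have hS' : (S.map e.symm.toEmbedding).card < p := by
      rw [Finset.card_map]; omega
    have hmem : ∀ z, e.symm z ∈ S.map e.symm.toEmbedding ↔ z ∈ S := by
      intro z
      rw [Finset.mem_map]
      constructor
      · rintro ⟨a, ha, h⟩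
        rw [← e.symm.injective h]
        exact ha
      · intro h
        exact ⟨z, h, rfl⟩
    have h := conn_all hp _ hS' (e.symm u) (e.symm v) (by rw [hmem]; exact hu)
      (by rw [hmem]; exact hv)
    have hstep : ∀ a b : PV p, Rel p (S.map e.symm.toEmbedding) a b →
        (((plane p).comap e.symm).Adj (e a) (e b) ∧ e a ∉ S ∧ e b ∉ S) := by
      intro a b hab
      obtain ⟨h1, h2, h3⟩ := hab
      refine ⟨?_, ?_, ?_⟩
      · rw [SimpleGraph.comap_adj, Equiv.symm_apply_apply, Equiv.symm_apply_apply]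
        exact h1
      · intro h4
        apply h2
        rw [← hmem, Equiv.symm_apply_apply] at h4
        exact h4
      · intro h4
        apply h3
        rw [← hmem, Equiv.symm_apply_apply] at h4
        exact h4
    have hlift : ∀ a b : PV p, Relation.ReflTransGen (Rel p (S.map e.symm.toEmbedding)) a b →
        Relation.ReflTransGen (fun a b =>
          ((plane p).comap e.symm).Adj a b ∧ a ∉ S ∧ b ∉ S) (e a) (e b) := by
      intro a b hab
      induction hab with
      | refl => exact Relation.ReflTransGen.refl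
      | tail _ hbc ih => exact ih.tail (hstep _ _ hbc)
    have h' := hlift _ _ h
    simpa using h'
  · refine ⟨e (Sum.inl (0, 0)), e (Sum.inl (0, 1)), ?_, ?_⟩
    · intro h
      have := e.injective h
      simp at this
    · rw [SimpleGraph.comap_adj, Equiv.symm_apply_apply, Equiv.symm_apply_apply]
      exact plane_ll _ _

end Pool.Agent.TH757.FSLol
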