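import Pool.Agent.TH597.IV.Stm
import Pool.Agent.TH746.Loc

/-!
Local families of billiard trajectories in the tables `T(Ω)`.
-/

set_option autoImplicit false

namespace Pool.Agent.TH757.IV_LOC

open MeasureTheory Set Filter Topology
open scoped InnerProductSpace
open Pool.Agent.H721R2.Ivrii Pool.Agent.H721R2.Quart Pool.Agent.TH746

section
variable {E : Type*} [NormedAddCommGroup E] [InnerProductSpace ℝ E] [FiniteDimensional ℝ E]

theorem inv_app {S : E →L[ℝ] E} (hS : IsUnit S) (x : E) : Ring.inverse S (S x) = x := by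
  have := Ring.inverse_mul_cancel S hS
  exact congrArg (fun A : E →L[ℝ] E => A x) this

theorem app_inv {S : E →L[ℝ] E} (hS : IsUnit S) (x : E) : S (Ring.inverse S x) = x := by
  have := Ring.mul_inverse_cancel S hS
  exact congrArg (fun A : E →L[ℝ] E => A x) this

theorem grad_comp {F : E → ℝ} {A : E →L[ℝ] E} {x : E} (h : DifferentiableAt ℝ F (A x)) :
    gradient (F ∘ A) x = ContinuousLinearMap.adjoint A (gradient F (A x)) := by
  refine ext_inner_right ℝ fun w => ?_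
  rw [← G4_fderiv_eq, ContinuousLinearMap.adjoint_inner_left, ← G4_fderiv_eq,
    fderiv_comp x h A.differentiableAt, ContinuousLinearMap.comp_apply, A.fderiv]

theorem comp_lin {Ω : Set E} {A : E →L[ℝ] E} (hA : IsUnit A) {y : E} {F : E → ℝ}
    (h : LocalDef (A '' Ω) (A y) F) : LocalDef Ω y (F ∘ A) := by
  refine ⟨?_, h.zero, ?_, ?_⟩
  · exact h.smooth.comp y A.contDiff.contDiffAt
  · rw [grad_comp (h.smooth.differentiableAt (by norm_num))]
    intro h0
    apply h.grad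
    have h1 : ⟪gradient F (A y), A (Ring.inverse A (gradient F (A y)))⟫_ℝ = 0 := by
      rw [← ContinuousLinearMap.adjoint_inner_left, h0, inner_zero_left]
    rw [app_inv hA] at h1
    exact inner_self_eq_zero.1 h1
  · have h1 := A.continuous.continuousAt.eventually h.mem
    filter_upwards [h1] with x hx
    rw [Function.comp_apply, ← hx]
    constructor
    · exact fun h => mem_image_of_mem _ h
    · rintro ⟨z, hz, hzx⟩
      have : z = x := by rw [← inv_app hA z, hzx, inv_app hA]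
      rwa [← this]

theorem isUnit_inv {S : E →L[ℝ] E} (hS : IsUnit S) : IsUnit (Ring.inverse S) :=
  ⟨⟨Ring.inverse S, S, Ring.inverse_mul_cancel S hS, Ring.mul_inverse_cancel S hS⟩, rfl⟩

theorem comp_inv {Ω : Set E} {S : E →L[ℝ] E} (hS : IsUnit S) {q : E} {f : E → ℝ}
    (h : LocalDef Ω (Ring.inverse S q) f) :
    LocalDef (S '' Ω) q (f ∘ (Ring.inverse S : E →L[ℝ] E)) := by
  apply comp_lin (isUnit_inv hS)
  have : (Ring.inverse S : E →L[ℝ] E) '' (S '' Ω) = Ω := by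
    ext y
    constructor
    · rintro ⟨_, ⟨x, hx, rfl⟩, rfl⟩
      rw [inv_app hS]
      exact hx
    · intro hy
      exact ⟨S y, mem_image_of_mem _ hy, inv_app hS y⟩
  rw [this]
  exact h

theorem step_lin {Ω : Set E} {S : E →L[ℝ] E} (hS : IsUnit S) {q v q' v' : E}
    (h : Step (S '' Ω) q v q' v') {f : E → ℝ} (hf : LocalDef Ω (Ring.inverse S q') f) :
    v' = rf (dir (ContinuousLinearMap.adjoint (Ring.inverse S)
      (gradient f (Ring.inverse S q')))) v ∧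
      ⟪gradient f (Ring.inverse S q'), Ring.inverse S v⟫_ℝ ≠ 0 ∧
      ∃ t : ℝ, 0 < t ∧ q' = q + t • v := by
  obtain ⟨h1, h2, h3⟩ := step_refl' h (comp_inv hS hf)
  rw [grad_comp (hf.smooth.differentiableAt (by norm_num))] at h1 h2
  rw [ContinuousLinearMap.adjoint_inner_left] at h2
  exact ⟨h1, h2, h3⟩

theorem inv_cd {M : Type*} [NormedAddCommGroup M] [NormedSpace ℝ M] {m : WithTop ℕ∞}
    {A : M → E →L[ℝ] E} {z : M} (hA : ContDiffAt ℝ m A z) (hu : IsUnit (A z)) :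
    ContDiffAt ℝ m (fun z => Ring.inverse (A z)) z := by
  obtain ⟨a, ha⟩ := hu
  have := contDiffAt_ringInverse (n := m) ℝ a
  rw [ha] at this
  exact this.comp z hA

theorem adj_cd {M : Type*} [NormedAddCommGroup M] [NormedSpace ℝ M] {m : WithTop ℕ∞}
    {A : M → E →L[ℝ] E} {z : M} (hA : ContDiffAt ℝ m A z) :
    ContDiffAt ℝ m (fun z => ContinuousLinearMap.adjoint (A z)) z :=
  ((ContinuousLinearMap.adjoint (𝕜 := ℝ) (E := E) (F := E)).contDiff.contDiffAt).comp z hA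

omit [FiniteDimensional ℝ E] in
theorem dir_cd {M : Type*} [NormedAddCommGroup M] [NormedSpace ℝ M] {m : WithTop ℕ∞}
    {g : M → E} {z : M} (hg : ContDiffAt ℝ m g z) (h0 : g z ≠ 0) :
    ContDiffAt ℝ m (fun z => dir (g z)) z := by
  unfold dir
  have h1 : ContDiffAt ℝ m (fun z => ‖g z‖) z := hg.norm ℝ h0
  exact (h1.inv (norm_ne_zero_iff.2 h0)).smul hg

theorem adj_ne {S : E →L[ℝ] E} (hS : IsUnit S) {g : E} (hg : g ≠ 0) :
    ContinuousLinearMap.adjoint (Ring.inverse S) g ≠ 0 := by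
  intro h0
  apply hg
  have h1 : ⟪g, Ring.inverse S (S g)⟫_ℝ = 0 := by
    rw [← ContinuousLinearMap.adjoint_inner_left, h0, inner_zero_left]
  rw [inv_app hS] at h1
  exact inner_self_eq_zero.1 h1

theorem orbit_def {Ω : Set E} {S : E →L[ℝ] E} (hS : IsUnit S) {n : ℕ} {p u : ℕ → E}
    (h : Orbit (S '' Ω) n p u) (k : ℕ) : ∃ f, LocalDef Ω (Ring.inverse S (p k)) f := by
  obtain ⟨G, hG⟩ : ∃ G, LocalDef (S '' Ω) (p k) G := by
    obtain ⟨t, -, -, -, F, hF, -, -⟩ := h.step (k + n - 1)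
    have h2 : k + n - 1 + 1 = k + n := by have := h.pos; omega
    rw [h2, h.perp k] at hF
    exact ⟨F, hF⟩
  refine ⟨G ∘ S, comp_lin hS ?_⟩
  rw [app_inv hS]
  exact hG

end

theorem loc : Pool.Agent.TH597.IV.LOC := by
  intro E _ _ _ Ω T n p u hT h
  -- defining functions
  have hf := fun k => orbit_def hT h k
  choose f hf using hf
  have hunit := unit_steps h.step h.unit
  have hst := fun k => step_lin hT (h.step k) (hf (k + 1))
  have hst3 := fun k => (hst k).2.2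
  choose t htp hpt using hst3
  have hq : ∀ k, Ring.inverse T (p (k + 1)) =
      Ring.inverse T (p k) + t k • Ring.inverse T (u k) := by
    intro k
    rw [hpt k, map_add, map_smul]
  have hH : ∀ k, ∃ H : E × E → ℝ, ContDiffAt ℝ 3 H (Ring.inverse T (p k), Ring.inverse T (u k)) ∧
      H (Ring.inverse T (p k), Ring.inverse T (u k)) = t k ∧
      (∀ᶠ y in 𝓝 (Ring.inverse T (p k), Ring.inverse T (u k)), f (k + 1) (y.1 + H y • y.2) = 0) ∧
      (∀ᶠ y in 𝓝 ((Ring.inverse T (p k), Ring.inverse T (u k)), t k),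
        f (k + 1) (y.1.1 + y.2 • y.1.2) = 0 → y.2 = H y.1) := by
    intro k
    exact exists_hit (by rw [← hq k]; exact (hf (k + 1)).smooth)
      (by rw [← hq k]; exact (hf (k + 1)).zero)
      (by rw [← hq k, G4_fderiv_eq]; exact (hst k).2.1)
  choose H hH1 hH2 hH3 hH4 using hH
  -- the charts
  obtain ⟨Fs, hFs⟩ : ∃ Fs : E → ℝ, Fs = fun v : E => ⟪v, v⟫_ℝ - 1 := ⟨_, rfl⟩
  have Fsc : ContDiffAt ℝ 3 Fs (u 0) := by
    rw [hFs]
    exact ((contDiff_id.inner ℝ contDiff_id).sub contDiff_const).contDiffAt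
  have Fs0 : Fs (u 0) = 0 := by rw [hFs]; simp only [hunit 0, sub_self]
  have Fsgr : ∀ v w, ⟪gradient Fs v, w⟫_ℝ = 2 * ⟪v, w⟫_ℝ := by
    rw [hFs]; exact gradient_sphere
  have Fsg : gradient Fs (u 0) ≠ 0 := by
    intro h0
    have h1 := Fsgr (u 0) (u 0)
    rw [h0, inner_zero_left, hunit 0] at h1
    norm_num at h1
  obtain ⟨a, ha0, X, cX, X0, Xz, ⟨P, Pc, P0, Pu⟩, Xs⟩ :=
    chart' (hf 0).smooth (hf 0).zero (hf 0).grad
  obtain ⟨b, hb0, Y, cY, Y0, Yz, ⟨Q, Qc, Q0, Qu⟩, Ys⟩ := chart' Fsc Fs0 Fsg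
  -- the family
  obtain ⟨s, hs0, hs1⟩ : ∃ s : ℕ → ((E →L[ℝ] E) × ((ℝ ∙ a)ᗮ × (ℝ ∙ b)ᗮ)) → E × E,
      (s 0 = fun z => (X z.2.1, Y z.2.2)) ∧
      ∀ k, s (k + 1) = fun z =>
        ((s k z).1 + H k ((s k z).1, Ring.inverse z.1 (s k z).2) • Ring.inverse z.1 (s k z).2,
        rf (dir (ContinuousLinearMap.adjoint (Ring.inverse z.1) (gradient (f (k + 1))
          ((s k z).1 + H k ((s k z).1, Ring.inverse z.1 (s k z).2) •
            Ring.inverse z.1 (s k z).2)))) (s k z).2) :=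
    ⟨fun k => Nat.rec (fun z => (X z.2.1, Y z.2.2)) (fun k s z =>
        ((s z).1 + H k ((s z).1, Ring.inverse z.1 (s z).2) • Ring.inverse z.1 (s z).2,
        rf (dir (ContinuousLinearMap.adjoint (Ring.inverse z.1) (gradient (f (k + 1))
          ((s z).1 + H k ((s z).1, Ring.inverse z.1 (s z).2) •
            Ring.inverse z.1 (s z).2)))) (s z).2)) k, rfl, fun k => rfl⟩
  obtain ⟨z0, hz0⟩ : ∃ z0 : (E →L[ℝ] E) × ((ℝ ∙ a)ᗮ × (ℝ ∙ b)ᗮ), z0 = (T, 0) := ⟨_, rfl⟩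
  have z01 : z0.1 = T := by rw [hz0]
  have z02 : z0.2 = 0 := by rw [hz0]
  have z021 : z0.2.1 = 0 := by rw [z02]; rfl
  have z022 : z0.2.2 = 0 := by rw [z02]; rfl
  have cR : ContDiffAt ℝ 2 (fun z : (E →L[ℝ] E) × ((ℝ ∙ a)ᗮ × (ℝ ∙ b)ᗮ) => Ring.inverse z.1) z0 :=
    inv_cd contDiffAt_fst (by rw [z01]; exact hT)
  have cs : ∀ k, ContDiffAt ℝ 2 (s k) z0 ∧ s k z0 = (Ring.inverse T (p k), u k) := by
    intro k
    induction k with
    | zero =>
      rw [hs0]
      refine ⟨?_, by simp only [z021, z022, X0, Y0]⟩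
      have c1 : ContDiffAt ℝ 2 (fun z : (E →L[ℝ] E) × ((ℝ ∙ a)ᗮ × (ℝ ∙ b)ᗮ) => X z.2.1) z0 := by
        refine ContDiffAt.comp (g := X)
          (f := fun z : (E →L[ℝ] E) × ((ℝ ∙ a)ᗮ × (ℝ ∙ b)ᗮ) => z.2.1) z0 ?_
          (contDiff_fst.comp contDiff_snd).contDiffAt
        simp only [z021]
        exact cX
      have c2 : ContDiffAt ℝ 2 (fun z : (E →L[ℝ] E) × ((ℝ ∙ a)ᗮ × (ℝ ∙ b)ᗮ) => Y z.2.2) z0 := by
        refine ContDiffAt.comp (g := Y)
          (f := fun z : (E →L[ℝ] E) × ((ℝ ∙ a)ᗮ × (ℝ ∙ b)ᗮ) => z.2.2) z0 ?_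
          (contDiff_snd.comp contDiff_snd).contDiffAt
        simp only [z022]
        exact cY
      exact c1.prodMk c2
    | succ k ih =>
      obtain ⟨ih1, ih2⟩ := ih
      have hc1 : ContDiffAt ℝ 2 (fun z => (s k z).1) z0 := ih1.fst
      have hc2 : ContDiffAt ℝ 2 (fun z => (s k z).2) z0 := ih1.snd
      have hcv : ContDiffAt ℝ 2 (fun z : (E →L[ℝ] E) × ((ℝ ∙ a)ᗮ × (ℝ ∙ b)ᗮ) =>
          Ring.inverse z.1 (s k z).2) z0 := cR.clm_apply hc2
      have hcH : ContDiffAt ℝ 2 (fun z => H k ((s k z).1, Ring.inverse z.1 (s k z).2)) z0 := by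
        refine ContDiffAt.comp (g := H k)
          (f := fun z => ((s k z).1, Ring.inverse z.1 (s k z).2)) z0 ?_ (hc1.prodMk hcv)
        simp only [ih2, z01]
        exact (hH1 k).of_le (by norm_num)
      have hcx : ContDiffAt ℝ 2 (fun z => (s k z).1 +
          H k ((s k z).1, Ring.inverse z.1 (s k z).2) • Ring.inverse z.1 (s k z).2) z0 :=
        hc1.add (hcH.smul hcv)
      have hx0 : (s k z0).1 + H k ((s k z0).1, Ring.inverse z0.1 (s k z0).2) •
          Ring.inverse z0.1 (s k z0).2 = Ring.inverse T (p (k + 1)) := by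
        rw [ih2, z01, hH2, hq]
      have hcg : ContDiffAt ℝ 2 (fun z => gradient (f (k + 1)) ((s k z).1 +
          H k ((s k z).1, Ring.inverse z.1 (s k z).2) • Ring.inverse z.1 (s k z).2)) z0 := by
        refine ContDiffAt.comp (g := gradient (f (k + 1)))
          (f := fun z => (s k z).1 +
          H k ((s k z).1, Ring.inverse z.1 (s k z).2) • Ring.inverse z.1 (s k z).2) z0 ?_ hcx
        simp only [hx0]
        exact G2_contDiff_grad (hf (k + 1)).smooth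
      have hcd := dir_cd ((adj_cd cR).clm_apply hcg) (by
        rw [hx0, z01]
        exact adj_ne hT (hf (k + 1)).grad)
      rw [hs1]
      refine ⟨hcx.prodMk (G4_rf_cd hcd hc2), ?_⟩
      simp only [hx0]
      rw [ih2, z01, ← (hst k).1]
  have tz1 : Tendsto (fun z : (E →L[ℝ] E) × ((ℝ ∙ a)ᗮ × (ℝ ∙ b)ᗮ) => z.2.1) (𝓝 z0) (𝓝 0) := by
    have h1 : Continuous (fun z : (E →L[ℝ] E) × ((ℝ ∙ a)ᗮ × (ℝ ∙ b)ᗮ) => z.2.1) :=
      continuous_fst.comp continuous_snd
    have h2 := h1.tendsto z0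
    rwa [z021] at h2
  have tz2 : Tendsto (fun z : (E →L[ℝ] E) × ((ℝ ∙ a)ᗮ × (ℝ ∙ b)ᗮ) => z.2.2) (𝓝 z0) (𝓝 0) := by
    have h1 : Continuous (fun z : (E →L[ℝ] E) × ((ℝ ∙ a)ᗮ × (ℝ ∙ b)ᗮ) => z.2.2) :=
      continuous_snd.comp continuous_snd
    have h2 := h1.tendsto z0
    rwa [z022] at h2
  have hUn : ∀ᶠ z : (E →L[ℝ] E) × ((ℝ ∙ a)ᗮ × (ℝ ∙ b)ᗮ) in 𝓝 z0, IsUnit z.1 := by
    have h1 : {A : E →L[ℝ] E | IsUnit A} ∈ 𝓝 z0.1 :=
      Units.isOpen.mem_nhds (by rw [z01]; exact hT)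
    exact continuous_fst.continuousAt.eventually h1
  have ts : ∀ k, Tendsto (s k) (𝓝 z0) (𝓝 (Ring.inverse T (p k), u k)) := by
    intro k
    have := (cs k).1.continuousAt.tendsto
    rwa [(cs k).2] at this
  have cv : ∀ k, ContDiffAt ℝ 2 (fun z => ((s k z).1, Ring.inverse z.1 (s k z).2)) z0 :=
    fun k => (cs k).1.fst.prodMk (cR.clm_apply (cs k).1.snd)
  have tv : ∀ k, Tendsto (fun z => ((s k z).1, Ring.inverse z.1 (s k z).2)) (𝓝 z0)
      (𝓝 (Ring.inverse T (p k), Ring.inverse T (u k))) := by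
    intro k
    have h1 := (cv k).continuousAt.tendsto
    rw [(cs k).2, z01] at h1
    exact h1
  have zero : ∀ k, ∀ᶠ z in 𝓝 z0, f k (s k z).1 = 0 := by
    intro k
    cases k with
    | zero =>
      rw [hs0]
      exact tz1.eventually Xz
    | succ k =>
      rw [hs1]
      exact (tv k).eventually (hH3 k)
  have hcH : ∀ k, ContDiffAt ℝ 2 (fun z => H k ((s k z).1, Ring.inverse z.1 (s k z).2)) z0 := by
    intro k
    refine ContDiffAt.comp (g := H k)
      (f := fun z => ((s k z).1, Ring.inverse z.1 (s k z).2)) z0 ?_ (cv k)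
    simp only [(cs k).2, z01]
    exact (hH1 k).of_le (by norm_num)
  have hE : ∀ k, ∀ᶠ z in 𝓝 z0, ⟪(s k z).2, (s k z).2⟫_ℝ = 1 := by
    intro k
    induction k with
    | zero =>
      rw [hs0]
      filter_upwards [tz2.eventually Yz] with z hz
      rw [hFs] at hz
      exact sub_eq_zero.1 hz
    | succ k ih =>
      have g1 : ∀ᶠ z in 𝓝 z0, gradient (f (k + 1)) (s (k + 1) z).1 ≠ 0 := by
        have c : ContinuousAt (fun z => gradient (f (k + 1)) (s (k + 1) z).1) z0 := by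
          refine ContinuousAt.comp (g := gradient (f (k + 1))) (f := fun z => (s (k + 1) z).1) ?_
            (cs (k + 1)).1.fst.continuousAt
          rw [(cs (k + 1)).2]
          exact (G2_contDiff_grad (hf (k + 1)).smooth).continuousAt
        refine c.eventually_ne ?_
        rw [(cs (k + 1)).2]
        exact (hf (k + 1)).grad
      filter_upwards [ih, g1, hUn] with z h1 h2 h3
      rw [hs1] at h2 ⊢
      simp only at h2 ⊢
      rw [G3_rf_inner (dir_unit (adj_ne h3 h2)), h1]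
  have hdf : ∀ k, ∀ᶠ z in 𝓝 z0, DifferentiableAt ℝ (f k) (s k z).1 := by
    intro k
    have h1 : ∀ᶠ x in 𝓝 (Ring.inverse T (p k)), ContDiffAt ℝ 3 (f k) x :=
      (hf k).smooth.eventually (by norm_num)
    have h2 : Tendsto (fun z => (s k z).1) (𝓝 z0) (𝓝 (Ring.inverse T (p k))) :=
      (continuous_fst.tendsto _).comp (ts k)
    filter_upwards [h2.eventually h1] with z hz
    exact hz.differentiableAt (by norm_num)
  have hTp : ∀ k, ∀ᶠ z in 𝓝 z0, 0 < H k ((s k z).1, Ring.inverse z.1 (s k z).2) := by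
    intro k
    have h1 := (hcH k).continuousAt.tendsto
    refine h1.eventually_const_lt ?_
    rw [z01, (cs k).2, hH2]
    exact htp k
  have cL : ContDiffAt ℝ 1 (fun z : (E →L[ℝ] E) × ((ℝ ∙ a)ᗮ × (ℝ ∙ b)ᗮ) =>
      (z.1 (s 0 z).1, (s 0 z).2)) z0 :=
    ((contDiffAt_fst.clm_apply (cs 0).1.fst).prodMk (cs 0).1.snd).of_le (by norm_num)
  obtain ⟨K, tK, htK, hK⟩ := cL.exists_lipschitzOnWith
  have hsj : ∀ᶠ z : (E →L[ℝ] E) × ((ℝ ∙ a)ᗮ × (ℝ ∙ b)ᗮ) in 𝓝 z0,
      (∀ W, ⟪gradient Fs (Y z.2.2), W⟫_ℝ = 0 → ∃ ζ, fderiv ℝ Y z.2.2 ζ = W) ∧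
        ContDiffAt ℝ 2 Y z.2.2 :=
    tz2.eventually (Ys.and (cY.eventually (by norm_num)))
  have hall : ∀ᶠ z in 𝓝 z0, ∀ k ∈ Set.Iic n,
      ContDiffAt ℝ 2 (s k) z ∧
      ContDiffAt ℝ 2 (fun z => H k ((s k z).1, Ring.inverse z.1 (s k z).2)) z ∧
      0 < H k ((s k z).1, Ring.inverse z.1 (s k z).2) ∧ ⟪(s k z).2, (s k z).2⟫_ℝ = 1 ∧
      f k (s k z).1 = 0 ∧ DifferentiableAt ℝ (f k) (s k z).1 := by
    rw [Filter.eventually_all_finite (Set.finite_Iic n)]
    intro k _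
    exact ((cs k).1.eventually (by norm_num)).and (((hcH k).eventually (by norm_num)).and
      ((hTp k).and ((hE k).and ((zero k).and (hdf k)))))
  obtain ⟨U, hU, hUo, hU0⟩ := eventually_nhds_iff.1 (hall.and (hUn.and (hsj.and
    (show ∀ᶠ z in 𝓝 z0, z ∈ tK from htK))))
  obtain ⟨F, hFU, hFn, hFx, hFe⟩ : ∃ F : Pool.Agent.TH597.IV.Fam E ((ℝ ∙ a)ᗮ × (ℝ ∙ b)ᗮ),
      F.U = U ∧ F.n = n ∧ (F.x = fun k z => (s k z).1) ∧ (F.e = fun k z => (s k z).2) := by
    refine ⟨{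
      U := U
      hU := hUo
      n := n
      hn := h.pos
      x := fun k z => (s k z).1
      e := fun k z => (s k z).2
      τ := fun k z => H k ((s k z).1, Ring.inverse z.1 (s k z).2)
      cx := fun k hk z hz => ((hU z hz).1 k hk).1.fst
      ce := fun k hk z hz => ((hU z hz).1 k hk).1.snd
      cτ := fun k hk z hz => ((hU z hz).1 k hk.le).2.1
      inv := fun z hz => (hU z hz).2.1
      τpos := fun k hk z hz => ((hU z hz).1 k hk.le).2.2.1
      ee := fun k hk z hz => ((hU z hz).1 k hk).2.2.2.1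
      step := ?_
      refl := ?_
      surj := ?_ }, rfl, rfl, rfl, rfl⟩
    · intro k hk z hz
      have e1 : (s (k + 1) z).1 - (s k z).1 =
          H k ((s k z).1, Ring.inverse z.1 (s k z).2) • Ring.inverse z.1 (s k z).2 := by
        rw [hs1]
        simp only [add_sub_cancel_left]
      rw [e1, map_smul, app_inv (hU z hz).2.1]
    · intro k hk z hz ζ
      have hz1 := (hU z hz).1 (k + 1) hk
      have g1 : fderiv ℝ (fun z => f (k + 1) (s (k + 1) z).1) z = 0 := by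
        have : (fun z => f (k + 1) (s (k + 1) z).1) =ᶠ[𝓝 z] fun _ => 0 := by
          filter_upwards [hUo.mem_nhds hz] with y hy
          exact ((hU y hy).1 (k + 1) hk).2.2.2.2.1
        rw [this.fderiv_eq]
        simp
      have g2 : fderiv ℝ (fun z => f (k + 1) (s (k + 1) z).1) z ζ =
          ⟪gradient (f (k + 1)) (s (k + 1) z).1,
            fderiv ℝ (fun z => (s (k + 1) z).1) z ζ⟫_ℝ := by
        rw [← G4_fderiv_eq]
        have := fderiv_comp z (g := f (k + 1)) (f := fun z => (s (k + 1) z).1)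
          hz1.2.2.2.2.2 (hz1.1.fst.differentiableAt (by norm_num))
        exact congrArg (fun L => L ζ) this
      rw [g1, zero_apply] at g2
      have e2 : (s (k + 1) z).2 = rf (dir (ContinuousLinearMap.adjoint (Ring.inverse z.1)
          (gradient (f (k + 1)) (s (k + 1) z).1))) (s k z).2 := by
        rw [hs1]
      rw [e2, rf_dir, sub_sub_cancel_left, inner_neg_left, real_inner_smul_left,
        ContinuousLinearMap.adjoint_inner_left, inv_app (hU z hz).2.1, ← g2, mul_zero, neg_zero]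
    · intro z hz δ hδ
      obtain ⟨s2, c2⟩ := (hU z hz).2.2.1
      change ⟪(s 0 z).2, δ⟫_ℝ = 0 at hδ
      rw [hs0] at hδ ⊢
      simp only at hδ ⊢
      obtain ⟨ζ2, hζ2⟩ := s2 δ (by rw [Fsgr, hδ, mul_zero])
      refine ⟨(0, ζ2), ?_⟩
      have h1 : HasFDerivAt (fun z : (E →L[ℝ] E) × ((ℝ ∙ a)ᗮ × (ℝ ∙ b)ᗮ) => Y z.2.2)
          ((fderiv ℝ Y z.2.2).comp ((ContinuousLinearMap.snd ℝ _ _).comp
            (ContinuousLinearMap.snd ℝ _ _))) z :=
        (c2.differentiableAt (by norm_num)).hasFDerivAt.comp z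
          (hasFDerivAt_snd.comp z hasFDerivAt_snd)
      rw [h1.fderiv]
      exact hζ2
  refine ⟨a, b, F, ha0, hb0, hFn, ⟨K, fun S => ?_⟩, ?_⟩
  · rw [hFx, hFe, hFU]
    intro ζ hζ ζ' hζ'
    have h1 := hK (hU _ hζ).2.2.2 (hU _ hζ').2.2.2
    have h2 : edist (S, ζ) (S, ζ') = edist ζ ζ' := by
      rw [Prod.edist_eq]
      simp only [edist_self]
      exact max_eq_right bot_le
    rw [h2] at h1
    exact h1
  -- nearby trajectories
  have cRT : ContinuousAt (Ring.inverse : (E →L[ℝ] E) → (E →L[ℝ] E)) T := by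
    obtain ⟨a, ha⟩ := hT
    rw [← ha]
    exact NormedRing.inverse_continuousAt a
  have cR2 : ContinuousAt (fun w : (E →L[ℝ] E) × ((ℕ → E) × (ℕ → E)) => Ring.inverse w.1)
      (T, (p, u)) :=
    ContinuousAt.comp (g := Ring.inverse)
      (f := fun w : (E →L[ℝ] E) × ((ℕ → E) × (ℕ → E)) => w.1) cRT continuous_fst.continuousAt
  have C1 : ∀ k, Continuous (fun w : (E →L[ℝ] E) × ((ℕ → E) × (ℕ → E)) => w.2.1 k) :=
    fun k => (continuous_apply k).comp (continuous_fst.comp continuous_snd)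
  have C2 : ∀ k, Continuous (fun w : (E →L[ℝ] E) × ((ℕ → E) × (ℕ → E)) => w.2.2 k) :=
    fun k => (continuous_apply k).comp (continuous_snd.comp continuous_snd)
  have T1 : ∀ k, Tendsto (fun w : (E →L[ℝ] E) × ((ℕ → E) × (ℕ → E)) =>
      Ring.inverse w.1 (w.2.1 k)) (𝓝 (T, (p, u))) (𝓝 (Ring.inverse T (p k))) := fun k =>
    (cR2.clm_apply (C1 k).continuousAt).tendsto
  have T2 : ∀ k, Tendsto (fun w : (E →L[ℝ] E) × ((ℕ → E) × (ℕ → E)) => w.2.2 k)
      (𝓝 (T, (p, u))) (𝓝 (u k)) := fun k => (C2 k).tendsto _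
  have T2' : ∀ k, Tendsto (fun w : (E →L[ℝ] E) × ((ℕ → E) × (ℕ → E)) =>
      Ring.inverse w.1 (w.2.2 k)) (𝓝 (T, (p, u))) (𝓝 (Ring.inverse T (u k))) := fun k =>
    (cR2.clm_apply (C2 k).continuousAt).tendsto
  have T3 : ∀ k, Tendsto (fun w : (E →L[ℝ] E) × ((ℕ → E) × (ℕ → E)) =>
      ((Ring.inverse w.1 (w.2.1 k), Ring.inverse w.1 (w.2.2 k)), ‖w.2.1 (k + 1) - w.2.1 k‖))
      (𝓝 (T, (p, u))) (𝓝 ((Ring.inverse T (p k), Ring.inverse T (u k)), t k)) := by
    intro k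
    have h2 : Tendsto (fun w : (E →L[ℝ] E) × ((ℕ → E) × (ℕ → E)) =>
        ‖w.2.1 (k + 1) - w.2.1 k‖) (𝓝 (T, (p, u))) (𝓝 (‖p (k + 1) - p k‖)) :=
      ((C1 (k + 1)).sub (C1 k)).norm.tendsto _
    have h3 : ‖p (k + 1) - p k‖ = t k := by
      have h4 : ‖u k‖ = 1 := by
        have h5 := hunit k
        rw [real_inner_self_eq_norm_sq] at h5
        nlinarith [norm_nonneg (u k)]
      rw [hpt k, add_sub_cancel_left, norm_smul, h4, mul_one, Real.norm_eq_abs,
        abs_of_pos (htp k)]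
    rw [h3] at h2
    exact ((T1 k).prodMk_nhds (T2' k)).prodMk_nhds h2
  obtain ⟨ζ, hζ⟩ : ∃ ζ : (E →L[ℝ] E) × ((ℕ → E) × (ℕ → E)) → (ℝ ∙ a)ᗮ × (ℝ ∙ b)ᗮ,
    ζ = fun w : (E →L[ℝ] E) × ((ℕ → E) × (ℕ → E)) => (P (Ring.inverse w.1 (w.2.1 0) - Ring.inverse T (p 0)), Q (w.2.2 0 - u 0)) := ⟨_, rfl⟩
  have Tζ : Tendsto (fun w => (w.1, ζ w)) (𝓝 (T, (p, u))) (𝓝 z0) := by
    have h1 : Tendsto (fun w : (E →L[ℝ] E) × ((ℕ → E) × (ℕ → E)) =>
        P (Ring.inverse w.1 (w.2.1 0) - Ring.inverse T (p 0))) (𝓝 (T, (p, u))) (𝓝 0) := by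
      have h2 := (Pc.tendsto (Ring.inverse T (p 0) - Ring.inverse T (p 0))).comp
        ((T1 0).sub_const (Ring.inverse T (p 0)))
      rwa [sub_self, P0] at h2
    have h2 : Tendsto (fun w : (E →L[ℝ] E) × ((ℕ → E) × (ℕ → E)) => Q (w.2.2 0 - u 0))
        (𝓝 (T, (p, u))) (𝓝 0) := by
      have h2 := (Qc.tendsto (u 0 - u 0)).comp ((T2 0).sub_const (u 0))
      rwa [sub_self, Q0] at h2
    rw [hζ, hz0]
    exact (continuous_fst.tendsto (T, (p, u))).prodMk_nhds (h1.prodMk_nhds h2)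
  have hev : ∀ᶠ w : (E →L[ℝ] E) × ((ℕ → E) × (ℕ → E)) in 𝓝 (T, (p, u)), ∀ k ∈ Set.Iic n,
      (f (k + 1) (Ring.inverse w.1 (w.2.1 k) +
          ‖w.2.1 (k + 1) - w.2.1 k‖ • Ring.inverse w.1 (w.2.2 k)) = 0 →
        ‖w.2.1 (k + 1) - w.2.1 k‖ = H k (Ring.inverse w.1 (w.2.1 k), Ring.inverse w.1 (w.2.2 k))) ∧
      (∀ F' : E → ℝ, LocalDef Ω (Ring.inverse w.1 (w.2.1 k)) F' →
        LocalDef Ω (Ring.inverse w.1 (w.2.1 k)) (f k)) := by
    rw [Filter.eventually_all_finite (Set.finite_Iic n)]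
    intro k _
    exact ((T3 k).eventually (hH4 k)).and ((T1 k).eventually (localDef_near (hf k)))
  have hUn' : ∀ᶠ w : (E →L[ℝ] E) × ((ℕ → E) × (ℕ → E)) in 𝓝 (T, (p, u)), IsUnit w.1 :=
    continuous_fst.continuousAt.eventually (Units.isOpen.mem_nhds hT)
  filter_upwards [hev, Tζ.eventually (hUo.mem_nhds hU0), (T1 0).eventually Pu,
    (T2 0).eventually Qu, hUn'] with w hw wU wP wQ wI hor
  have hunit' := unit_steps hor.step hor.unit
  have hdf' : ∀ k ≤ n, LocalDef Ω (Ring.inverse w.1 (w.2.1 k)) (f k) := by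
    intro k hk
    obtain ⟨f', hf'⟩ := orbit_def wI hor k
    exact (hw k hk).2 _ hf'
  have hss : ∀ k ≤ n, s k (w.1, ζ w) = (Ring.inverse w.1 (w.2.1 k), w.2.2 k) := by
    intro k
    induction k with
    | zero =>
      intro _
      rw [hs0, hζ]
      simp only
      rw [← wP (hdf' 0 (Nat.zero_le _)).zero, ← wQ (by rw [hFs]; simp only [hunit' 0, sub_self])]
    | succ k ih =>
      intro hk
      rw [hs1]
      simp only
      rw [ih (by omega)]
      simp only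
      obtain ⟨e1, e2, τ, hτ, e3⟩ := step_lin wI (hor.step k) (hdf' (k + 1) hk)
      have e4 : ‖w.2.1 (k + 1) - w.2.1 k‖ = τ := by
        have h4 : ‖w.2.2 k‖ = 1 := by
          have h5 := hunit' k
          rw [real_inner_self_eq_norm_sq] at h5
          nlinarith [norm_nonneg (w.2.2 k)]
        rw [e3, add_sub_cancel_left, norm_smul, h4, mul_one, Real.norm_eq_abs, abs_of_pos hτ]
      have e6 : Ring.inverse w.1 (w.2.1 k) + τ • Ring.inverse w.1 (w.2.2 k) =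
          Ring.inverse w.1 (w.2.1 (k + 1)) := by
        rw [e3, map_add, map_smul]
      have e5 := (hw k (by simp only [Set.mem_Iic]; omega)).1 (by
        rw [e4, e6]; exact (hdf' (k + 1) hk).zero)
      rw [e4] at e5
      rw [← e5, e6, ← e1]
  have hpp : w.2.1 n = w.2.1 0 := by
    have := hor.perp 0
    rwa [zero_add] at this
  have huu : w.2.2 n = w.2.2 0 := by
    have := hor.peru 0
    rwa [zero_add] at this
  refine ⟨ζ w, ⟨by rw [hFU]; exact wU, ?_, ?_⟩, ?_⟩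
  · rw [hFx, hFn]
    simp only
    rw [hss n le_rfl, hss 0 (Nat.zero_le _), hpp]
  · rw [hFe, hFn]
    simp only
    rw [hss n le_rfl, hss 0 (Nat.zero_le _), huu]
  · rw [hFx, hFe]
    simp only
    rw [hss 0 (Nat.zero_le _)]
    simp only
    rw [app_inv wI]

end Pool.Agent.TH757.IV_LOC
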