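import Pool.Agent.TH614.HS.Base

/-! Job 3873 (HS-OTH): the other roots of the quartic of a generator, given a simple circle root. -/

set_option autoImplicit false

namespace Pool.Agent.TH757.J3873

open Polynomial
open Pool.Agent.TH614.HS

section alg
variable {L : Type} [Field L]

def fc (th eta m z : L) : L := z ^ 3 + th * eta * z ^ 2 + eta ^ 2 * z + m / 4
def pl (th ii eta z : L) : L := z + (-th + ii) / 2 * (th * z + eta)
def mi (th ii eta z : L) : L := z + (-th - ii) / 2 * (th * z + eta)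
/-- the map star, `u` is the conjugate of `z` -/
def st (km m u : L) : L := -(u + km * m) / km

variable {th ii eta m : L} (h2 : (2 : L) ≠ 0) (hth : th ^ 2 = 3) (hii : ii ^ 2 = -1)

include h2 hth hii

lemma pl_pl (z : L) : pl th ii eta (pl th ii eta z) = mi th ii eta z := by
  unfold pl mi
  field_simp
  linear_combination (th * z * (th - 2 * ii) + eta * (th - 2 * ii)
    + th * z * 0) * hth + (th * (th * z + eta)) * hii

lemma mi_mi (z : L) : mi th ii eta (mi th ii eta z) = pl th ii eta z := by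
  unfold pl mi
  field_simp
  linear_combination (th * z * (th + 2 * ii) + eta * (th + 2 * ii)
    + th * z * 0) * hth + (th * (th * z + eta)) * hii

lemma A1 (z : L) : z + pl th ii eta z + mi th ii eta z = -(th * eta) := by
  unfold pl mi
  field_simp
  linear_combination (-2 * z) * hth

lemma A23 (z : L) : pl th ii eta z * mi th ii eta z = z ^ 2 + th * eta * z + eta ^ 2 := by
  unfold pl mi
  field_simp
  linear_combination (th * z + eta) ^ 2 * hth - (th * z + eta) ^ 2 * hii

/-- the sums of products of the roots -/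
lemma A2 (z : L) : z * pl th ii eta z + z * mi th ii eta z + pl th ii eta z * mi th ii eta z =
    eta ^ 2 := by
  linear_combination z * A1 h2 hth hii (eta := eta) z + A23 h2 hth hii (eta := eta) z

lemma A3 (z : L) (hz : fc th eta m z = 0) :
    z * (pl th ii eta z * mi th ii eta z) = -(m / 4) := by
  unfold fc at hz
  linear_combination z * A23 h2 hth hii (eta := eta) z + hz

/-- factorisation of the cubic -/
lemma fc_eq (z v : L) (hz : fc th eta m z = 0) :
    fc th eta m v = (v - z) * (v - pl th ii eta z) * (v - mi th ii eta z) := by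
  have a1 := A1 h2 hth hii (eta := eta) z
  have a2 := A2 h2 hth hii (eta := eta) z
  have a3 := A3 h2 hth hii z hz
  unfold fc
  linear_combination (v ^ 2) * a1 - v * a2 + a3

/-- the reciprocal cubic -/
lemma g_eq (z w : L) (hm : m ≠ 0) (hz : fc th eta m z = 0) (z0 : z ≠ 0)
    (z1 : pl th ii eta z ≠ 0) (z2 : mi th ii eta z ≠ 0) :
    w ^ 3 + 4 * eta ^ 2 * w ^ 2 + 4 * th * eta * m * w + 4 * m ^ 2 =
      (w - m / z) * (w - m / pl th ii eta z) * (w - m / mi th ii eta z) := by
  have a1 := A1 h2 hth hii (eta := eta) z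
  have a2 := A2 h2 hth hii (eta := eta) z
  have a3 := A3 h2 hth hii z hz
  have h4 : (4 : L) ≠ 0 := by
    have : (4 : L) = 2 * 2 := by norm_num
    rw [this]; exact mul_ne_zero h2 h2
  have a3' : 4 * (z * (pl th ii eta z * mi th ii eta z)) = -m := by
    rw [a3]; field_simp
  generalize pl th ii eta z = p at *
  generalize mi th ii eta z = r at *
  have hP : z * p * r ≠ 0 := mul_ne_zero (mul_ne_zero z0 z1) z2
  have e : (w - m / z) * (w - m / p) * (w - m / r) =
      w ^ 3 - (m * (z * p + z * r + p * r) / (z * p * r)) * w ^ 2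
        + (m ^ 2 * (z + p + r) / (z * p * r)) * w - m ^ 3 / (z * p * r) := by
    field_simp
    ring
  have e0 : m = -4 * (z * p * r) := by linear_combination a3'
  rw [e, a1, a2]
  have f1 : m * eta ^ 2 / (z * p * r) = -4 * eta ^ 2 := by
    rw [div_eq_iff hP]; linear_combination eta ^ 2 * e0
  have f2 : m ^ 2 * -(th * eta) / (z * p * r) = 4 * (th * eta * m) := by
    rw [div_eq_iff hP]; linear_combination (-(th * eta * m)) * e0
  have f3 : m ^ 3 / (z * p * r) = -4 * m ^ 2 := by
    rw [div_eq_iff hP]; linear_combination m ^ 2 * e0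
  rw [f1, f2, f3]
  ring

omit hth hii in
lemma fc_ne {z : L} (hm : m ≠ 0) (hz : fc th eta m z = 0) : z ≠ 0 := by
  rintro rfl
  unfold fc at hz
  have h4 : (4 : L) ≠ 0 := by
    have : (4 : L) = 2 * 2 := by norm_num
    rw [this]; exact mul_ne_zero h2 h2
  have : m / 4 = 0 := by linear_combination hz
  rcases div_eq_zero_iff.1 this with h | h
  · exact hm h
  · exact h4 h

variable {km : L} (hk : km ≠ 0)

include hk

/-- star and the two rotations; `u` is the conjugate of `z` -/
lemma st_pl (u : L) : st km m (u + (th + ii) / 2 * (-th * u + km * (eta - th * m))) =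
    mi th ii eta (st km m u) := by
  unfold st mi
  field_simp
  linear_combination (0 : L) * hth

lemma st_mi (u : L) : st km m (u + (th - ii) / 2 * (-th * u + km * (eta - th * m))) =
    pl th ii eta (st km m u) := by
  unfold st pl
  field_simp
  linear_combination (0 : L) * hth

omit hii in
/-- star maps roots to roots -/
lemma fc_st (u : L) (hfin : (4 * m ^ 2 - 4 * th * eta * m + 4 * eta ^ 2 - 1) * km ^ 2 = 1)
    (hu : u ^ 3 + -th * (km * (eta - th * m)) * u ^ 2 + (km * (eta - th * m)) ^ 2 * u +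
      km * m / 4 = 0) : fc th eta m (st km m u) = 0 := by
  have h4 : (4 : L) ≠ 0 := by
    have : (4 : L) = 2 * 2 := by norm_num
    rw [this]; exact mul_ne_zero h2 h2
  obtain ⟨v, rfl⟩ : ∃ v, u = km * v := ⟨u / km, by field_simp⟩
  have e1 : st km m (km * v) = -(v + m) := by
    unfold st
    field_simp
  have e2 : km ^ 3 * (4 * v ^ 3 - 4 * (th * (eta - th * m)) * v ^ 2 + 4 * (eta - th * m) ^ 2 * v +
      m * (4 * m ^ 2 - 4 * th * eta * m + 4 * eta ^ 2 - 1)) = 0 := by
    have e3 : 4 * ((km * v) ^ 3 + -th * (km * (eta - th * m)) * (km * v) ^ 2 +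
      (km * (eta - th * m)) ^ 2 * (km * v)) + km * m = 0 := by
      have : (4 : L) * (km * m / 4) = km * m := by field_simp
      linear_combination 4 * hu - this
    linear_combination e3 + km * m * hfin
  have e4 := (mul_eq_zero.1 e2).resolve_left (pow_ne_zero 3 hk)
  rw [e1]
  have e5 : 4 * fc th eta m (-(v + m)) = 0 := by
    unfold fc
    have : (4 : L) * (m / 4) = m := by field_simp
    linear_combination (-1 : L) * e4 + this + (4 * v * m ^ 2 + 4 * v ^ 2 * m) * hth
  exact (mul_eq_zero.1 e5).resolve_left h4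

end alg

theorem OTH : S_CUB → S_OTH := by
  intro hcub L _ _ D x s mu eta ep hx hs hRD hm hEp
  obtain ⟨hep, hE1, hE2⟩ := hEp
  have h2 : (2 : L) ≠ 0 := D.two_ne
  have h4 : (4 : L) ≠ 0 := D.four_ne
  have hth := D.th2
  have hii := D.ii2
  have hcubw := hcub L D x s mu eta hx hRD
  obtain ⟨m, hmd⟩ : ∃ m, m = mu + D.th * eta := ⟨_, rfl⟩
  rw [← hmd] at hm
  simp only [← hmd] at hcubw
  have hx0 : x ≠ 0 := hx.ne
  have hx'0 : x ^ (D.q ^ 3) ≠ 0 := pow_ne_zero _ hx0
  have hs0 : s ≠ 0 := hs.ne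
  have hep0 : ep ≠ 0 := by
    rcases hep with h | h
    · rw [h]; exact one_ne_zero
    · rw [h]; exact neg_ne_zero.2 one_ne_zero
  have hep2 : ep ^ 2 = 1 := by
    rcases hep with h | h <;> rw [h] <;> ring
  obtain ⟨km, hkm⟩ : ∃ km, km = -ep * (s ^ 2 * x / x ^ (D.q ^ 3)) := ⟨_, rfl⟩
  have hk : km ≠ 0 := by
    rw [hkm]
    exact mul_ne_zero (neg_ne_zero.2 hep0)
      (div_ne_zero (mul_ne_zero (pow_ne_zero _ hs0) hx0) hx'0)
  obtain ⟨σ, hσ⟩ : ∃ σ : L →+* L, σ = D.frn 3 := ⟨_, rfl⟩
  have σd : ∀ z, σ z = z ^ (D.q ^ 3) := fun z => by rw [hσ]; rfl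
  have σth : σ D.th = -D.th := by rw [σd]; exact D.th_q3
  have σii : σ D.ii = D.ii := by rw [σd]; exact D.ii_n 3
  have σs : σ s = s⁻¹ := by rw [σd]; exact hs.inv
  have σeta : σ eta = km * (eta - D.th * m) := by
    rw [σd, hE2, hkm, hmd]
    linear_combination (ep * (s ^ 2 * x / x ^ (D.q ^ 3)) * (-eta)) * hth
  have σm : σ m = km * m := by
    rw [hmd, map_add, map_mul, σth, σd mu, hE1, σd eta, hE2, hkm]
    linear_combination (-(ep * (s ^ 2 * x / x ^ (D.q ^ 3)) * mu)) * hth
  have hfin : (4 * m ^ 2 - 4 * D.th * eta * m + 4 * eta ^ 2 - 1) * km ^ 2 = 1 := by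
    have h1 := hcubw (-1)
    have h3 : (D.Phi x).eval (s * (1 + -1)) = -(x ^ (D.q ^ 3)) ^ 2 := by
      rw [add_neg_cancel, mul_zero]
      simp [HD.Phi]
    rw [h3] at h1
    rw [hkm]
    have h5 : (x ^ (D.q ^ 3)) ^ 2 ≠ 0 := pow_ne_zero 2 hx'0
    have h6 : (-ep * (s ^ 2 * x / x ^ (D.q ^ 3))) ^ 2 = s ^ 4 * x ^ 2 / (x ^ (D.q ^ 3)) ^ 2 := by
      rw [mul_pow, neg_sq, hep2, one_mul, div_pow]
      ring
    rw [h6, mul_div_assoc', div_eq_one_iff_eq h5]
    linear_combination h1
  -- a root of the cubic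
  obtain ⟨ξ, hξ⟩ : ∃ ξ, fc D.th eta m ξ = 0 := by
    obtain ⟨ξ, h⟩ := IsAlgClosed.exists_root
      (C 1 * X ^ 3 + C (D.th * eta) * X ^ 2 + C (eta ^ 2) * X + C (m / 4)) (by
        rw [degree_cubic one_ne_zero]; decide)
    refine ⟨ξ, ?_⟩
    unfold fc
    simpa [IsRoot] using h
  -- the conjugate of a root
  have σf : ∀ z, fc D.th eta m z = 0 → fc D.th eta m (st km m (σ z)) = 0 := by
    intro z hz
    apply fc_st h2 hth hk (σ z) hfin
    have h1 := congrArg σ hz
    unfold fc at h1
    rw [map_add, map_add, map_add, map_mul, map_mul, map_mul, map_pow, map_pow, map_pow, map_div₀,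
      σth, σeta, σm, map_zero, map_ofNat] at h1
    exact h1
  have σpl : ∀ z, σ (pl D.th D.ii eta z) =
      σ z + (D.th + D.ii) / 2 * (-D.th * σ z + km * (eta - D.th * m)) := by
    intro z
    unfold pl
    rw [map_add, map_mul, map_div₀, map_add, map_add, map_neg, map_mul, σth, σii, σeta, map_ofNat,
      neg_neg]
  have σmi : ∀ z, σ (mi D.th D.ii eta z) =
      σ z + (D.th - D.ii) / 2 * (-D.th * σ z + km * (eta - D.th * m)) := by
    intro z
    unfold mi
    rw [map_add, map_mul, map_div₀, map_sub, map_add, map_neg, map_mul, σth, σii, σeta, map_ofNat,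
      neg_neg]
  have stpl : ∀ z, st km m (σ (pl D.th D.ii eta z)) = mi D.th D.ii eta (st km m (σ z)) := by
    intro z
    rw [σpl]
    exact st_pl h2 hth hii hk (σ z)
  have stmi : ∀ z, st km m (σ (mi D.th D.ii eta z)) = pl D.th D.ii eta (st km m (σ z)) := by
    intro z
    rw [σmi]
    exact st_mi h2 hth hii hk (σ z)
  -- the conjugate of the corresponding root of the quartic
  have σZ : ∀ z, fc D.th eta m z = 0 →
      (s * (1 + m / st km m (σ z))) * σ (s * (1 + m / z)) = 1 := by
    intro z hz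
    have z0 := fc_ne h2 hm hz
    have u0 : σ z ≠ 0 := by rw [σd]; exact pow_ne_zero _ z0
    have w0 := fc_ne h2 hm (σf z hz)
    rw [map_mul, map_add, map_div₀, σs, map_one, σm]
    generalize σ z = u at *
    have v0 : u + km * m ≠ 0 := by
      intro h
      apply w0
      unfold st
      rw [h, neg_zero, zero_div]
    obtain ⟨v, hv⟩ : ∃ v, v = u + km * m := ⟨_, rfl⟩
    have e1 : km * m = v - u := by rw [hv]; ring
    have e2 : st km m u = -v / km := by unfold st; rw [hv]
    rw [← hv] at v0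
    have e3 : m / (-v / km) = -((v - u) / v) := by
      rw [← e1]
      field_simp
    rw [e2, e3, e1]
    field_simp
    ring
  -- the three roots
  have z0 := fc_ne h2 hm hξ
  have hpl : fc D.th eta m (pl D.th D.ii eta ξ) = 0 := by
    rw [fc_eq h2 hth hii ξ _ hξ, sub_self, mul_zero, zero_mul]
  have hmi : fc D.th eta m (mi D.th D.ii eta ξ) = 0 := by
    rw [fc_eq h2 hth hii ξ _ hξ, sub_self, mul_zero]
  have z1 := fc_ne h2 hm hpl
  have z2 := fc_ne h2 hm hmi
  have hPhi : D.Phi x = C (x ^ 2) * (X - C s) * (X - C (s * (1 + m / ξ))) *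
      (X - C (s * (1 + m / pl D.th D.ii eta ξ))) * (X - C (s * (1 + m / mi D.th D.ii eta ξ))) := by
    apply Polynomial.funext
    intro r
    obtain ⟨w, rfl⟩ : ∃ w, r = s * (1 + w) := ⟨r / s - 1, by field_simp; ring⟩
    rw [hcubw w, g_eq h2 hth hii ξ w hm hξ z0 z1 z2]
    simp only [eval_mul, eval_sub, eval_X, eval_C]
    ring
  have hinv : ∀ a b : L, a * σ b = 1 → b ≠ 0 ∧ a = (b ^ (D.q ^ 3))⁻¹ := by
    intro a b h
    refine ⟨?_, ?_⟩
    · rintro rfl
      rw [map_zero, mul_zero] at h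
      exact zero_ne_one h
    · rw [← σd]
      exact eq_inv_of_mul_eq_one_left h
  have hcirc : ∀ a : L, a * σ a = 1 → D.circ a := by
    intro a h
    unfold HD.circ
    rw [pow_succ, ← σd, mul_comm]
    exact h
  have hstar := σf ξ hξ
  rw [fc_eq h2 hth hii ξ _ hξ] at hstar
  rcases mul_eq_zero.1 hstar with h | h
  · rcases mul_eq_zero.1 h with h | h
    · -- star fixes the root
      have h1 := sub_eq_zero.1 h
      have e1 := σZ ξ hξ
      rw [h1] at e1
      have e2 := σZ _ hpl
      rw [stpl, h1] at e2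
      obtain ⟨c0, c1⟩ := hinv _ _ e2
      refine ⟨_, _, hcirc _ e1, c0, ?_⟩
      rw [← c1]
      exact hPhi
    · have h1 := sub_eq_zero.1 h
      have e1 := σZ _ hmi
      rw [stmi, h1, pl_pl h2 hth hii] at e1
      have e2 := σZ ξ hξ
      rw [h1] at e2
      obtain ⟨c0, c1⟩ := hinv _ _ e2
      refine ⟨_, _, hcirc _ e1, c0, ?_⟩
      rw [← c1, hPhi]
      ring
  · have h1 := sub_eq_zero.1 h
    have e1 := σZ _ hpl
    rw [stpl, h1, mi_mi h2 hth hii] at e1
    have e2 := σZ ξ hξ
    rw [h1] at e2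
    obtain ⟨c0, c1⟩ := hinv _ _ e2
    refine ⟨_, _, hcirc _ e1, c0, ?_⟩
    rw [← c1, hPhi]
    ring

end Pool.Agent.TH757.J3873
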