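import Mathlib

set_option autoImplicit false

/-! N4 project, job ING: elementary parts. -/

namespace Pool.Agent.TH757.N4_ING

open Finset

lemma dsum_le {M0 M : ℕ} (hM : M0 ≤ M) (f : ℕ → ℝ) (a : ℕ → ℕ → ℝ) (h0 : ∀ n, 0 ≤ f n) (h1 : ∀ n, f n ≤ 1)
    (hf : ∀ n ∈ Icc 1 M0, f n = 1) (ha : ∀ m ∈ Icc 1 M, ∀ n ∈ Icc 1 M, 0 ≤ a m n) :
    ∑ m ∈ Icc 1 M0, ∑ n ∈ Icc 1 M0, a m n ≤ ∑ m ∈ Icc 1 M, ∑ n ∈ Icc 1 M, f m * f n * a m n ∧
    ∑ m ∈ Icc 1 M, ∑ n ∈ Icc 1 M, f m * f n * a m n ≤ ∑ m ∈ Icc 1 M, ∑ n ∈ Icc 1 M, a m n := by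
  have hss : Icc 1 M0 ⊆ Icc 1 M := Icc_subset_Icc le_rfl hM
  constructor
  · calc ∑ m ∈ Icc 1 M0, ∑ n ∈ Icc 1 M0, a m n = ∑ m ∈ Icc 1 M0, ∑ n ∈ Icc 1 M0, f m * f n * a m n := by
          refine sum_congr rfl fun m hm => sum_congr rfl fun n hn => ?_
          rw [hf m hm, hf n hn, one_mul, one_mul]
      _ ≤ ∑ m ∈ Icc 1 M0, ∑ n ∈ Icc 1 M, f m * f n * a m n := by
          refine sum_le_sum fun m hm => sum_le_sum_of_subset_of_nonneg hss fun n hn _ => ?_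
          exact mul_nonneg (mul_nonneg (h0 m) (h0 n)) (ha m (hss hm) n hn)
      _ ≤ ∑ m ∈ Icc 1 M, ∑ n ∈ Icc 1 M, f m * f n * a m n := by
          refine sum_le_sum_of_subset_of_nonneg hss fun m hm _ => sum_nonneg fun n hn => ?_
          exact mul_nonneg (mul_nonneg (h0 m) (h0 n)) (ha m hm n hn)
  · refine sum_le_sum fun m hm => sum_le_sum fun n hn => ?_
    have h2 : f m * f n ≤ 1 := by
      calc f m * f n ≤ 1 * 1 := mul_le_mul (h1 m) (h1 n) (h0 n) zero_le_one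
        _ = 1 := one_mul 1
    calc f m * f n * a m n ≤ 1 * a m n := mul_le_mul_of_nonneg_right h2 (ha m hm n hn)
      _ = a m n := one_mul _

lemma pow4_sub {a b L : ℝ} (ha : 0 ≤ a) (haL : a ≤ L) (hb : 0 ≤ b) (hbL : b ≤ L) :
    |a ^ 4 - b ^ 4| ≤ 4 * L ^ 3 * |a - b| := by
  have hL : 0 ≤ L := ha.trans haL
  have e : a ^ 4 - b ^ 4 = (a ^ 3 + a ^ 2 * b + a * b ^ 2 + b ^ 3) * (a - b) := by ring
  rw [e, abs_mul]
  have h0 : 0 ≤ a ^ 3 + a ^ 2 * b + a * b ^ 2 + b ^ 3 := by positivity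
  rw [abs_of_nonneg h0]
  refine mul_le_mul_of_nonneg_right ?_ (abs_nonneg _)
  have h1 : a ^ 3 ≤ L ^ 3 := pow_le_pow_left₀ ha haL 3
  have h2 : b ^ 3 ≤ L ^ 3 := pow_le_pow_left₀ hb hbL 3
  have h3 : a ^ 2 * b ≤ L ^ 2 * L := mul_le_mul (pow_le_pow_left₀ ha haL 2) hbL hb (by positivity)
  have h4 : a * b ^ 2 ≤ L * L ^ 2 := mul_le_mul haL (pow_le_pow_left₀ hb hbL 2) (by positivity) hL
  nlinarith

lemma pow3_sub {a b L : ℝ} (ha : 0 ≤ a) (haL : a ≤ L) (hb : 0 ≤ b) (hbL : b ≤ L) :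
    |a ^ 3 - b ^ 3| ≤ 3 * L ^ 2 * |a - b| := by
  have hL : 0 ≤ L := ha.trans haL
  have e : a ^ 3 - b ^ 3 = (a ^ 2 + a * b + b ^ 2) * (a - b) := by ring
  rw [e, abs_mul]
  have h0 : 0 ≤ a ^ 2 + a * b + b ^ 2 := by positivity
  rw [abs_of_nonneg h0]
  refine mul_le_mul_of_nonneg_right ?_ (abs_nonneg _)
  have h1 : a ^ 2 ≤ L ^ 2 := pow_le_pow_left₀ ha haL 2
  have h2 : b ^ 2 ≤ L ^ 2 := pow_le_pow_left₀ hb hbL 2
  have h3 : a * b ≤ L * L := mul_le_mul haL hbL hb hL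
  nlinarith

/-- main term of the first sum -/
lemma mt1 {a L : ℝ} (ha : 0 ≤ a) (haL : a ≤ L) :
    |3 / (2 * Real.pi ^ 2) * a ^ 4 - 3 / (32 * Real.pi ^ 2) * L ^ 4| ≤ 4 * L ^ 3 * |a - L / 2| := by
  have hL : 0 ≤ L := ha.trans haL
  have hpi : 9 ≤ Real.pi ^ 2 := by nlinarith [Real.pi_gt_three]
  have e : 3 / (2 * Real.pi ^ 2) * a ^ 4 - 3 / (32 * Real.pi ^ 2) * L ^ 4 =
      3 / (2 * Real.pi ^ 2) * (a ^ 4 - (L / 2) ^ 4) := by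
    have : Real.pi ≠ 0 := Real.pi_ne_zero
    field_simp
    ring
  rw [e, abs_mul]
  have h1 : |3 / (2 * Real.pi ^ 2)| ≤ 1 := by
    rw [abs_of_nonneg (by positivity), div_le_one (by positivity)]
    linarith
  calc |3 / (2 * Real.pi ^ 2)| * |a ^ 4 - (L / 2) ^ 4| ≤ 1 * (4 * L ^ 3 * |a - L / 2|) :=
        mul_le_mul h1 (pow4_sub ha haL (by linarith) (by linarith)) (abs_nonneg _) zero_le_one
    _ = _ := one_mul _

/-- main term of the second sum -/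
lemma mt2 {a L : ℝ} (ha : 0 ≤ a) (haL : a ≤ L) :
    |6 / Real.pi ^ 2 * (L * a ^ 3 / 3 - a ^ 4 / 4) - 5 / (32 * Real.pi ^ 2) * L ^ 4| ≤
      2 * L ^ 3 * |a - L / 2| := by
  have hL : 0 ≤ L := ha.trans haL
  have hpi : 9 ≤ Real.pi ^ 2 := by nlinarith [Real.pi_gt_three]
  have e : 6 / Real.pi ^ 2 * (L * a ^ 3 / 3 - a ^ 4 / 4) - 5 / (32 * Real.pi ^ 2) * L ^ 4 =
      6 / Real.pi ^ 2 * (L / 3 * (a ^ 3 - (L / 2) ^ 3) - (a ^ 4 - (L / 2) ^ 4) / 4) := by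
    have : Real.pi ≠ 0 := Real.pi_ne_zero
    field_simp
    ring
  rw [e, abs_mul]
  have h1 : |6 / Real.pi ^ 2| ≤ 1 := by
    rw [abs_of_nonneg (by positivity), div_le_one (by positivity)]
    linarith
  have h2 : |L / 3 * (a ^ 3 - (L / 2) ^ 3) - (a ^ 4 - (L / 2) ^ 4) / 4| ≤ 2 * L ^ 3 * |a - L / 2| := by
    have h3 := pow3_sub (b := L / 2) ha haL (by linarith) (by linarith)
    have h4 := pow4_sub (b := L / 2) ha haL (by linarith) (by linarith)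
    calc |L / 3 * (a ^ 3 - (L / 2) ^ 3) - (a ^ 4 - (L / 2) ^ 4) / 4|
        ≤ |L / 3 * (a ^ 3 - (L / 2) ^ 3)| + |(a ^ 4 - (L / 2) ^ 4) / 4| := abs_sub _ _
      _ = L / 3 * |a ^ 3 - (L / 2) ^ 3| + |a ^ 4 - (L / 2) ^ 4| / 4 := by
          rw [abs_mul, abs_div (a ^ 4 - (L / 2) ^ 4), abs_of_nonneg (by positivity : 0 ≤ L / 3),
            abs_of_pos (by norm_num : (0:ℝ) < 4)]
      _ ≤ L / 3 * (3 * L ^ 2 * |a - L / 2|) + (4 * L ^ 3 * |a - L / 2|) / 4 := by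
          gcongr
      _ = 2 * L ^ 3 * |a - L / 2| := by ring
  calc |6 / Real.pi ^ 2| * |L / 3 * (a ^ 3 - (L / 2) ^ 3) - (a ^ 4 - (L / 2) ^ 4) / 4|
      ≤ 1 * (2 * L ^ 3 * |a - L / 2|) := mul_le_mul h1 h2 (abs_nonneg _) zero_le_one
    _ = _ := one_mul _

lemma log2pi : 0 ≤ Real.log (2 * Real.pi) ∧ Real.log (2 * Real.pi) ≤ 2 := by
  have h3 := Real.pi_gt_three
  have h4 := Real.pi_lt_d2
  constructor
  · exact Real.log_nonneg (by linarith)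
  · rw [Real.log_le_iff_le_exp (by positivity)]
    have h5 : (2.7:ℝ) ≤ Real.exp 1 := by
      have := Real.exp_one_gt_d9
      linarith
    have h6 : Real.exp 2 = Real.exp 1 * Real.exp 1 := by
      rw [← Real.exp_add]; norm_num
    rw [h6]
    nlinarith

end Pool.Agent.TH757.N4_ING
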