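import Pool.Agent.TH806.N4.Defs3
import Pool.Agent.H448R2.GC.K1
import Pool.Agent.TH757.N4_INGa

set_option autoImplicit false

/-! N4 project, job ING: the constant of the fourth moment in the windows. -/

namespace Pool.Agent.TH757.N4_ING

open Finset Filter Topology MeasureTheory Complex
open Pool.Agent.W184.NZ
open Pool.Agent.TH806 hiding gl
open Pool.Agent.TH806.N4
open Pool.Agent.H306R2.SM (om cl Yf)
open Pool.Agent.H262R4.TM (Rng Ck)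
open Pool.Agent.H448R2.GC (cu cs ker XX cu_nonneg cu_le_one cu_one cu_zero)

noncomputable section

/-! ### the coefficients -/

/-- the coefficients of the smoothed sums -/
def fc (k : ℕ) (c D : ℝ) (m : ℕ) : ℝ := cu k c (Real.log m - D)

lemma fc_nonneg {k : ℕ} {c D : ℝ} (hc : 0 < c) (m : ℕ) : 0 ≤ fc k c D m := cu_nonneg k c _ hc

lemma fc_le_one {k : ℕ} {c D : ℝ} (hc : 0 < c) (m : ℕ) : fc k c D m ≤ 1 := cu_le_one k c _ hc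

lemma fc_one {k : ℕ} {c D : ℝ} (hc : 0 < c) {m : ℕ} (hm : m ∈ Icc 1 ⌊Real.exp D⌋₊) : fc k c D m = 1 := by
  rw [mem_Icc] at hm
  have h1 : (m : ℝ) ≤ Real.exp D := (Nat.le_floor_iff (Real.exp_pos D).le).1 hm.2
  have h2 : Real.log m ≤ D := by
    have hm0 : (0:ℝ) < m := by exact_mod_cast hm.1
    rw [Real.log_le_iff_le_exp hm0]
    exact h1
  exact cu_one k c _ hc (by linarith)

lemma fc_zero {k : ℕ} {c D : ℝ} (hc : 0 < c) {m : ℕ} (hm : ⌊Real.exp (D + k * c)⌋₊ < m) : fc k c D m = 0 := by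
  have h1 : Real.exp (D + k * c) < m := (Nat.floor_lt (Real.exp_pos _).le).1 hm
  have h2 : D + k * c < Real.log m := by
    rw [Real.lt_log_iff_exp_lt ((Real.exp_pos _).trans h1)]
    exact h1
  exact cu_zero k c _ hc (by linarith)

lemma cs_DP {k : ℕ} {c D : ℝ} (hc : 0 < c) {M : ℕ} (hM : ⌊Real.exp (D + k * c)⌋₊ ≤ M) (t : ℝ) :
    cs k c D (cl t) = DP (fun n => ((fc k c D n : ℝ) : ℂ)) M t := by
  unfold cs DP
  symm
  refine (sum_subset (Icc_subset_Icc le_rfl hM) fun m _ hm => ?_).symm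
  rw [mem_Icc, not_and, not_le] at hm
  by_cases h1 : 1 ≤ m
  · show ((fc k c D m : ℝ) : ℂ) * (m : ℂ) ^ (-(cl t)) = 0
    rw [fc_zero hc (hm h1)]
    simp
  · exfalso
    rename_i hm2
    rw [mem_Icc] at hm2
    omega

lemma DP_sub (f g : ℕ → ℝ) (M : ℕ) (t : ℝ) :
    DP (fun n => ((f n : ℝ) : ℂ)) M t - DP (fun n => ((g n : ℝ) : ℂ)) M t =
      DP (fun n => (((f n - g n : ℝ)) : ℂ)) M t := by
  unfold DP
  rw [← sum_sub_distrib]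
  refine sum_congr rfl fun m _ => ?_
  push_cast
  ring

/-! ### the kernel -/

lemma gk_nonneg (m n : ℕ) : 0 ≤ gk m n := by unfold gk; positivity

lemma gl_nonpos {m n : ℕ} (hm : 1 ≤ m) (hn : 1 ≤ n) : gl m n ≤ 0 := by
  unfold gl
  have hm0 : (0:ℝ) < m := by exact_mod_cast hm
  have hn0 : (0:ℝ) < n := by exact_mod_cast hn
  refine Real.log_nonpos (by positivity) ?_
  rw [div_le_one (by positivity)]
  have h1 : ((Nat.gcd m n : ℕ) : ℝ) ≤ m := by exact_mod_cast Nat.gcd_le_left n hm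
  have h2 : ((Nat.gcd m n : ℕ) : ℝ) ≤ n := by exact_mod_cast Nat.gcd_le_right m hn
  rw [sq]
  exact mul_le_mul h1 h2 (by positivity) hm0.le

lemma gl_ge {m n : ℕ} {a : ℝ} (hm : m ∈ Icc 1 ⌊Real.exp a⌋₊) (hn : n ∈ Icc 1 ⌊Real.exp a⌋₊) :
    -(2 * a) ≤ gl m n := by
  rw [mem_Icc] at hm hn
  unfold gl
  have hm0 : (0:ℝ) < m := by exact_mod_cast hm.1
  have hn0 : (0:ℝ) < n := by exact_mod_cast hn.1
  have hm1 : (m : ℝ) ≤ Real.exp a := (Nat.le_floor_iff (Real.exp_pos a).le).1 hm.2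
  have hn1 : (n : ℝ) ≤ Real.exp a := (Nat.le_floor_iff (Real.exp_pos a).le).1 hn.2
  have hg : 1 ≤ Nat.gcd m n := Nat.gcd_pos_of_pos_left n (by omega)
  have hg1 : (1:ℝ) ≤ (Nat.gcd m n : ℝ) := by exact_mod_cast hg
  rw [Real.le_log_iff_exp_le (by positivity)]
  rw [le_div_iff₀ (by positivity)]
  have e : Real.exp (-(2 * a)) * (Real.exp a * Real.exp a) = 1 := by
    rw [← Real.exp_add, ← Real.exp_add, ← Real.exp_zero]
    congr 1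
    ring
  calc Real.exp (-(2 * a)) * ((m:ℝ) * n) ≤ Real.exp (-(2 * a)) * (Real.exp a * Real.exp a) := by
        refine mul_le_mul_of_nonneg_left ?_ (Real.exp_pos _).le
        exact mul_le_mul hm1 hn1 hn0.le (Real.exp_pos _).le
    _ = 1 := e
    _ ≤ (Nat.gcd m n : ℝ) ^ 2 := one_le_pow₀ hg1

/-! ### the first sum -/

lemma S1_near {C1 : ℝ} (hC1 : 0 < C1) (h1 : ∀ X : ℝ, 1 ≤ X →
    |S1 X - 3 / (2 * Real.pi ^ 2) * Real.log X ^ 4| ≤ C1 * (1 + Real.log X) ^ 3)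
    {a L E : ℝ} (ha : 0 ≤ a) (haL : a ≤ L) (hE : |a - L / 2| ≤ E) (hL : 1 ≤ L) :
    |S1 (Real.exp a) - 3 / (32 * Real.pi ^ 2) * L ^ 4| ≤ 8 * C1 * L ^ 3 + 4 * L ^ 3 * E := by
  have h2 := h1 (Real.exp a) (Real.one_le_exp ha)
  rw [Real.log_exp] at h2
  have h3 := mt1 ha haL
  have h4 : C1 * (1 + a) ^ 3 ≤ 8 * C1 * L ^ 3 := by
    have : (1 + a) ^ 3 ≤ (2 * L) ^ 3 := pow_le_pow_left₀ (by linarith) (by linarith) 3
    nlinarith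
  have h5 : 4 * L ^ 3 * |a - L / 2| ≤ 4 * L ^ 3 * E := mul_le_mul_of_nonneg_left hE (by positivity)
  rw [abs_le] at *
  constructor <;> linarith [h2.1, h2.2, h3.1, h3.2]

lemma sum1 {C1 : ℝ} (hC1 : 0 < C1) (h1 : ∀ X : ℝ, 1 ≤ X →
    |S1 X - 3 / (2 * Real.pi ^ 2) * Real.log X ^ 4| ≤ C1 * (1 + Real.log X) ^ 3)
    {η L c D1 : ℝ} {k : ℕ} (hη : 0 < η) (hη1 : η ≤ 1 / 200) (hL : 1 ≤ L)
    (hc : c = η * L / ((k:ℝ) + 1)) (hD1 : D1 = (1 / 2 - 2 * η) * L) :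
    |(∑ m ∈ Icc 1 ⌊Real.exp (D1 + η * L)⌋₊, ∑ n ∈ Icc 1 ⌊Real.exp (D1 + η * L)⌋₊,
      fc (k + 1) c D1 m * fc (k + 1) c D1 n * (((m * n).divisors.card : ℝ) / ((m:ℝ) * n))) -
      3 / (32 * Real.pi ^ 2) * L ^ 4| ≤ 8 * C1 * L ^ 3 + 8 * η * L ^ 4 := by
  have hk : (0:ℝ) < (k:ℝ) + 1 := by positivity
  have hηL : 0 < η * L := by positivity
  have hc0 : 0 < c := by rw [hc]; positivity
  have hD0 : 0 ≤ D1 := by rw [hD1]; nlinarith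
  have hM : ⌊Real.exp D1⌋₊ ≤ ⌊Real.exp (D1 + η * L)⌋₊ :=
    Nat.floor_le_floor (Real.exp_le_exp.2 (by linarith))
  obtain ⟨hlo, hhi⟩ := dsum_le hM (fc (k + 1) c D1) (fun m n => ((m * n).divisors.card : ℝ) / ((m:ℝ) * n))
    (fun n => fc_nonneg hc0 n) (fun n => fc_le_one hc0 n) (fun n hn => fc_one hc0 hn)
    (fun m _ n _ => by positivity)
  have e1 : |D1 - L / 2| ≤ 2 * η * L := by
    rw [hD1, abs_le]; constructor <;> nlinarith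
  have e2 : |D1 + η * L - L / 2| ≤ 2 * η * L := by
    rw [hD1, abs_le]; constructor <;> nlinarith
  have h2 := S1_near hC1 h1 hD0 (by rw [hD1]; nlinarith) e1 hL
  have h3 := S1_near hC1 h1 (a := D1 + η * L) (by linarith) (by rw [hD1]; nlinarith) e2 hL
  unfold S1 at h2 h3
  have e3 : 4 * L ^ 3 * (2 * η * L) = 8 * η * L ^ 4 := by ring
  rw [e3] at h2 h3
  rw [abs_le] at *
  constructor <;> linarith [h2.1, h2.2, h3.1, h3.2]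

/-! ### the second sum -/

/-- the gcd sum -/
def S2 (X L : ℝ) : ℝ := ∑ m ∈ Icc 1 ⌊X⌋₊, ∑ n ∈ Icc 1 ⌊X⌋₊, gk m n * (L + gl m n)

/-- the sum of the kernel -/
def G2 (X : ℝ) : ℝ := ∑ m ∈ Icc 1 ⌊X⌋₊, ∑ n ∈ Icc 1 ⌊X⌋₊, gk m n

lemma G2_nonneg (X : ℝ) : 0 ≤ G2 X := sum_nonneg fun m _ => sum_nonneg fun n _ => gk_nonneg m n

lemma S2_near {C2 : ℝ} (h2 : ∀ X L : ℝ, 1 ≤ X → 1 ≤ L → Real.log X ≤ L →
    |(∑ m ∈ Icc 1 ⌊X⌋₊, ∑ n ∈ Icc 1 ⌊X⌋₊, gk m n * (L + gl m n)) -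
      6 / Real.pi ^ 2 * (L * Real.log X ^ 3 / 3 - Real.log X ^ 4 / 4)| ≤ C2 * L ^ 3)
    {a L E : ℝ} (ha : 0 ≤ a) (haL : a ≤ L) (hE : |a - L / 2| ≤ E) (hL : 1 ≤ L) :
    |S2 (Real.exp a) L - 5 / (32 * Real.pi ^ 2) * L ^ 4| ≤ C2 * L ^ 3 + 2 * L ^ 3 * E := by
  have h3 := h2 (Real.exp a) L (Real.one_le_exp ha) hL (by rw [Real.log_exp]; exact haL)
  rw [Real.log_exp] at h3
  have h4 := mt2 ha haL
  have h5 : 2 * L ^ 3 * |a - L / 2| ≤ 2 * L ^ 3 * E := mul_le_mul_of_nonneg_left hE (by positivity)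
  unfold S2
  rw [abs_le] at *
  constructor <;> linarith [h3.1, h3.2, h4.1, h4.2]

lemma G2_le {C3 : ℝ} (hC3 : 0 < C3) (h3 : ∀ X Y L : ℝ, 1 / 2 ≤ Y → Y ≤ X → 1 ≤ L → Real.log X ≤ L →
    ∑ m ∈ Ioc ⌊Y⌋₊ ⌊X⌋₊, ∑ n ∈ Ioc ⌊Y⌋₊ ⌊X⌋₊, gk m n ≤ C3 * (L * (1 + Real.log (X / Y)) ^ 2))
    {a L : ℝ} (ha : 0 ≤ a) (haL : a ≤ L) (hL : 1 ≤ L) : G2 (Real.exp a) ≤ 9 * C3 * L ^ 3 := by
  have h4 := h3 (Real.exp a) (1 / 2) L le_rfl (by linarith [Real.one_le_exp ha]) hL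
    (by rw [Real.log_exp]; exact haL)
  have e0 : ⌊(1 / 2 : ℝ)⌋₊ = 0 := by norm_num [Nat.floor_eq_zero]
  have e1 : Ioc 0 ⌊Real.exp a⌋₊ = Icc 1 ⌊Real.exp a⌋₊ := by
    ext x; simp only [mem_Ioc, mem_Icc]; omega
  rw [e0, e1] at h4
  have e2 : Real.log (Real.exp a / (1 / 2)) = a + Real.log 2 := by
    rw [div_div_eq_mul_div, div_one, Real.log_mul (Real.exp_pos a).ne' (by norm_num), Real.log_exp]
  rw [e2] at h4
  have hl2 : Real.log 2 ≤ 1 := by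
    have := Real.log_two_lt_d9; linarith
  have hl0 : 0 ≤ Real.log 2 := Real.log_nonneg (by norm_num)
  have h5 : (1 + (a + Real.log 2)) ^ 2 ≤ (3 * L) ^ 2 := pow_le_pow_left₀ (by linarith) (by linarith) 2
  unfold G2
  refine h4.trans ?_
  calc C3 * (L * (1 + (a + Real.log 2)) ^ 2) ≤ C3 * (L * (3 * L) ^ 2) := by gcongr
    _ = 9 * C3 * L ^ 3 := by ring

lemma sum2 {C2 C3 : ℝ} (hC3 : 0 < C3) (h2 : ∀ X L : ℝ, 1 ≤ X → 1 ≤ L → Real.log X ≤ L →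
    |(∑ m ∈ Icc 1 ⌊X⌋₊, ∑ n ∈ Icc 1 ⌊X⌋₊, gk m n * (L + gl m n)) -
      6 / Real.pi ^ 2 * (L * Real.log X ^ 3 / 3 - Real.log X ^ 4 / 4)| ≤ C2 * L ^ 3)
    (h3 : ∀ X Y L : ℝ, 1 / 2 ≤ Y → Y ≤ X → 1 ≤ L → Real.log X ≤ L →
    ∑ m ∈ Ioc ⌊Y⌋₊ ⌊X⌋₊, ∑ n ∈ Ioc ⌊Y⌋₊ ⌊X⌋₊, gk m n ≤ C3 * (L * (1 + Real.log (X / Y)) ^ 2))
    {η L c D2 lp : ℝ} {k : ℕ} (hη : 0 < η) (hη1 : η ≤ 1 / 200) (hL : 4 ≤ L)
    (hc : c = η * L / ((k:ℝ) + 1)) (hD2 : D2 = (1 / 2 + η) * L - lp) (hlp : 0 ≤ lp) (hlp2 : lp ≤ 2) :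
    |(∑ m ∈ Icc 1 ⌊Real.exp (D2 + η * L)⌋₊, ∑ n ∈ Icc 1 ⌊Real.exp (D2 + η * L)⌋₊,
      fc (k + 1) c D2 m * fc (k + 1) c D2 n * (gk m n * (L + gl m n))) -
      5 / (32 * Real.pi ^ 2) * L ^ 4| ≤ C2 * L ^ 3 + 4 * L ^ 3 + (4 + 36 * C3) * η * L ^ 4 := by
  have hk : (0:ℝ) < (k:ℝ) + 1 := by positivity
  have hL0 : 0 < L := by linarith
  have hηL : 0 < η * L := by positivity
  have hc0 : 0 < c := by rw [hc]; positivity
  have hD0 : 0 ≤ D2 := by rw [hD2]; nlinarith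
  set a := D2 + η * L with hadef
  have haL : a ≤ L := by rw [hadef, hD2]; nlinarith
  have ha0 : 0 ≤ a := by linarith
  have hM : ⌊Real.exp D2⌋₊ ≤ ⌊Real.exp a⌋₊ :=
    Nat.floor_le_floor (Real.exp_le_exp.2 (by linarith))
  have hgl : ∀ m ∈ Icc 1 ⌊Real.exp a⌋₊, ∀ n ∈ Icc 1 ⌊Real.exp a⌋₊, 0 ≤ L + gl m n + 4 * η * L := by
    intro m hm n hn
    have := gl_ge hm hn
    have h4 : 2 * a ≤ L + 4 * η * L := by rw [hadef, hD2]; nlinarith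
    linarith
  obtain ⟨hlo, hhi⟩ := dsum_le hM (fc (k + 1) c D2) (fun m n => gk m n * (L + gl m n + 4 * η * L))
    (fun n => fc_nonneg hc0 n) (fun n => fc_le_one hc0 n) (fun n hn => fc_one hc0 hn)
    (fun m hm n hn => mul_nonneg (gk_nonneg m n) (hgl m hm n hn))
  obtain ⟨hlo', hhi'⟩ := dsum_le hM (fc (k + 1) c D2) (fun m n => gk m n)
    (fun n => fc_nonneg hc0 n) (fun n => fc_le_one hc0 n) (fun n hn => fc_one hc0 hn)
    (fun m _ n _ => gk_nonneg m n)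
  have hsplit : ∀ (X : ℝ), ∑ m ∈ Icc 1 ⌊X⌋₊, ∑ n ∈ Icc 1 ⌊X⌋₊, gk m n * (L + gl m n + 4 * η * L) =
      S2 X L + 4 * η * L * G2 X := by
    intro X
    unfold S2 G2
    rw [mul_sum, ← sum_add_distrib]
    refine sum_congr rfl fun m _ => ?_
    rw [mul_sum, ← sum_add_distrib]
    refine sum_congr rfl fun n _ => ?_
    ring
  have hsplit2 : ∑ m ∈ Icc 1 ⌊Real.exp a⌋₊, ∑ n ∈ Icc 1 ⌊Real.exp a⌋₊,
      fc (k + 1) c D2 m * fc (k + 1) c D2 n * (gk m n * (L + gl m n + 4 * η * L)) =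
      (∑ m ∈ Icc 1 ⌊Real.exp a⌋₊, ∑ n ∈ Icc 1 ⌊Real.exp a⌋₊,
        fc (k + 1) c D2 m * fc (k + 1) c D2 n * (gk m n * (L + gl m n))) +
      4 * η * L * ∑ m ∈ Icc 1 ⌊Real.exp a⌋₊, ∑ n ∈ Icc 1 ⌊Real.exp a⌋₊,
        fc (k + 1) c D2 m * fc (k + 1) c D2 n * gk m n := by
    rw [mul_sum, ← sum_add_distrib]
    refine sum_congr rfl fun m _ => ?_
    rw [mul_sum, ← sum_add_distrib]
    refine sum_congr rfl fun n _ => ?_
    ring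
  rw [hsplit, hsplit2] at hlo
  rw [hsplit, hsplit2] at hhi
  have hG := G2_le hC3 h3 ha0 haL (by linarith)
  have hG0 := G2_nonneg (Real.exp D2)
  change G2 (Real.exp D2) ≤ _ at hlo'
  change _ ≤ G2 (Real.exp a) at hhi'
  have e1 : |D2 - L / 2| ≤ η * L + 2 := by
    rw [hD2, abs_le]; constructor <;> nlinarith
  have e2 : |a - L / 2| ≤ 2 * η * L + 2 := by
    rw [hadef, hD2, abs_le]; constructor <;> nlinarith
  have h4 := S2_near h2 hD0 (by linarith) (e1.trans (by nlinarith : η * L + 2 ≤ 2 * η * L + 2)) (by linarith)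
  have h5 := S2_near h2 ha0 haL e2 (by linarith)
  have e3 : 2 * L ^ 3 * (2 * η * L + 2) = 4 * L ^ 3 + 4 * η * L ^ 4 := by ring
  rw [e3] at h4 h5
  have h6 : 4 * η * L * G2 (Real.exp a) ≤ 36 * C3 * η * L ^ 4 := by
    calc 4 * η * L * G2 (Real.exp a) ≤ 4 * η * L * (9 * C3 * L ^ 3) :=
          mul_le_mul_of_nonneg_left hG (by positivity)
      _ = _ := by ring
  set P := ∑ m ∈ Icc 1 ⌊Real.exp a⌋₊, ∑ n ∈ Icc 1 ⌊Real.exp a⌋₊,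
        fc (k + 1) c D2 m * fc (k + 1) c D2 n * gk m n with hP
  have h7 : 4 * η * L * P ≤ 36 * C3 * η * L ^ 4 :=
    (mul_le_mul_of_nonneg_left hhi' (by positivity)).trans h6
  have h8 : 0 ≤ 4 * η * L * P := mul_nonneg (by positivity) (hG0.trans hlo')
  have h9 : 0 ≤ 4 * η * L * G2 (Real.exp D2) := mul_nonneg (by positivity) hG0
  rw [abs_le] at *
  constructor <;> nlinarith [h4.1, h4.2, h5.1, h5.2]

/-! ### the third sum -/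

lemma sum3 {C3 : ℝ} (hC3 : 0 < C3)
    (h3 : ∀ X Y L : ℝ, 1 / 2 ≤ Y → Y ≤ X → 1 ≤ L → Real.log X ≤ L →
    ∑ m ∈ Ioc ⌊Y⌋₊ ⌊X⌋₊, ∑ n ∈ Ioc ⌊Y⌋₊ ⌊X⌋₊, gk m n ≤ C3 * (L * (1 + Real.log (X / Y)) ^ 2))
    {η L D1 D2 lp : ℝ} (f : ℕ → ℝ) (hη : 0 < η) (hη1 : η ≤ 1 / 200) (hL : 4 ≤ L)
    (hD1 : D1 = (1 / 2 - 2 * η) * L)
    (hD2 : D2 = (1 / 2 + η) * L - lp) (hlp : 0 ≤ lp) (hD : D1 ≤ D2) (hf : ∀ n, |f n| ≤ 1)
    (hf0 : ∀ n ∈ Icc 1 ⌊Real.exp D1⌋₊, f n = 0) :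
    |∑ m ∈ Icc 1 ⌊Real.exp (D2 + η * L)⌋₊, ∑ n ∈ Icc 1 ⌊Real.exp (D2 + η * L)⌋₊,
      f m * f n * (gk m n * (L + gl m n))| ≤ 2 * C3 * L ^ 3 + 32 * C3 * η * L ^ 4 := by
  have hL0 : 0 < L := by linarith
  have hηL : 0 < η * L := by positivity
  have hD0 : 0 ≤ D1 := by rw [hD1]; nlinarith
  set a := D2 + η * L with hadef
  have haL : a ≤ L := by rw [hadef, hD2]; nlinarith
  have ha0 : 0 ≤ a := by linarith
  have hgl : ∀ m ∈ Icc 1 ⌊Real.exp a⌋₊, ∀ n ∈ Icc 1 ⌊Real.exp a⌋₊, |L + gl m n| ≤ L := by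
    intro m hm n hn
    have h5 := gl_ge hm hn
    have h4 : 2 * a ≤ L + 4 * η * L := by rw [hadef, hD2]; nlinarith
    have h6 := gl_nonpos (mem_Icc.1 hm).1 (mem_Icc.1 hn).1
    rw [abs_le]
    constructor <;> nlinarith
  have hsub : Ioc ⌊Real.exp D1⌋₊ ⌊Real.exp a⌋₊ ⊆ Icc 1 ⌊Real.exp a⌋₊ := by
    intro x hx
    rw [mem_Ioc] at hx
    rw [mem_Icc]
    omega
  have hz : ∀ n ∈ Icc 1 ⌊Real.exp a⌋₊, n ∉ Ioc ⌊Real.exp D1⌋₊ ⌊Real.exp a⌋₊ → f n = 0 := by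
    intro n hn hn2
    rw [mem_Icc] at hn
    rw [mem_Ioc] at hn2
    exact hf0 n (by rw [mem_Icc]; omega)
  have e1 : ∑ m ∈ Icc 1 ⌊Real.exp a⌋₊, ∑ n ∈ Icc 1 ⌊Real.exp a⌋₊,
      f m * f n * (gk m n * (L + gl m n)) =
      ∑ m ∈ Ioc ⌊Real.exp D1⌋₊ ⌊Real.exp a⌋₊, ∑ n ∈ Ioc ⌊Real.exp D1⌋₊ ⌊Real.exp a⌋₊,
      f m * f n * (gk m n * (L + gl m n)) := by
    symm
    calc _ = ∑ m ∈ Ioc ⌊Real.exp D1⌋₊ ⌊Real.exp a⌋₊, ∑ n ∈ Icc 1 ⌊Real.exp a⌋₊,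
          f m * f n * (gk m n * (L + gl m n)) := by
          refine sum_congr rfl fun m _ => sum_subset hsub fun n hn hn2 => ?_
          rw [hz n hn hn2]
          ring
      _ = _ := by
          refine sum_subset hsub fun m hm hm2 => sum_eq_zero fun n _ => ?_
          rw [hz m hm hm2]
          ring
  rw [e1]
  have h4 := h3 (Real.exp a) (Real.exp D1) L (by linarith [Real.one_le_exp hD0])
    (Real.exp_le_exp.2 (by linarith)) (by linarith) (by rw [Real.log_exp]; exact haL)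
  have e2 : Real.log (Real.exp a / Real.exp D1) = a - D1 := by
    rw [← Real.exp_sub, Real.log_exp]
  rw [e2] at h4
  have h5 : 0 ≤ a - D1 := by linarith
  have h6 : a - D1 ≤ 4 * η * L := by rw [hadef, hD1, hD2]; nlinarith
  calc |∑ m ∈ Ioc ⌊Real.exp D1⌋₊ ⌊Real.exp a⌋₊, ∑ n ∈ Ioc ⌊Real.exp D1⌋₊ ⌊Real.exp a⌋₊,
      f m * f n * (gk m n * (L + gl m n))|
      ≤ ∑ m ∈ Ioc ⌊Real.exp D1⌋₊ ⌊Real.exp a⌋₊, ∑ n ∈ Ioc ⌊Real.exp D1⌋₊ ⌊Real.exp a⌋₊, L * gk m n := by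
        refine (abs_sum_le_sum_abs _ _).trans (sum_le_sum fun m hm => ?_)
        refine (abs_sum_le_sum_abs _ _).trans (sum_le_sum fun n hn => ?_)
        rw [abs_mul, abs_mul, abs_mul, abs_of_nonneg (gk_nonneg m n)]
        calc |f m| * |f n| * (gk m n * |L + gl m n|) ≤ 1 * 1 * (gk m n * L) := by
              have := gk_nonneg m n
              have h7 := hgl m (hsub hm) n (hsub hn)
              gcongr
              · exact hf m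
              · exact hf n
          _ = L * gk m n := by ring
    _ = L * ∑ m ∈ Ioc ⌊Real.exp D1⌋₊ ⌊Real.exp a⌋₊, ∑ n ∈ Ioc ⌊Real.exp D1⌋₊ ⌊Real.exp a⌋₊, gk m n := by
        rw [mul_sum]
        refine sum_congr rfl fun m _ => ?_
        rw [mul_sum]
    _ ≤ L * (C3 * (L * (1 + (a - D1)) ^ 2)) := mul_le_mul_of_nonneg_left h4 hL0.le
    _ ≤ L * (C3 * (L * (1 + 4 * η * L) ^ 2)) := by gcongr
    _ ≤ L * (C3 * (L * (2 * L + 32 * η * L ^ 2))) := by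
        gcongr
        have h8 : η ^ 2 * L ^ 2 ≤ η * L ^ 2 := by
          have : η ^ 2 ≤ η := by nlinarith
          exact mul_le_mul_of_nonneg_right this (by positivity)
        nlinarith [sq_nonneg (1 - 4 * η * L)]
    _ = 2 * C3 * L ^ 3 + 32 * C3 * η * L ^ 4 := by ring

/-! ### the theorem -/

theorem t_ING (hKR : P_KR) (hAS : P_AS1) (hTW : P_TWM) (hFM : P_FM1) (h1 : P_S1) (h2 : P_S2) (h3 : P_S3) :
    P_ING := by
  have _ := hKR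
  intro ε hε
  obtain ⟨C1, hC1, h1⟩ := h1
  obtain ⟨C2, hC2, h2⟩ := h2
  obtain ⟨C3, hC3, h3⟩ := h3
  obtain ⟨CT, hCT, hTW⟩ := hTW
  have hK : 0 < 24 + 104 * C3 := by positivity
  obtain ⟨η, hη, hη1, hηε⟩ : ∃ η : ℝ, 0 < η ∧ η ≤ 1 / 200 ∧ (24 + 104 * C3) * η ≤ ε / 2 := by
    refine ⟨min (1 / 200) (ε / (2 * (24 + 104 * C3))), lt_min (by norm_num) (by positivity),
      min_le_left _ _, ?_⟩
    have h4 := min_le_right (1 / 200 : ℝ) (ε / (2 * (24 + 104 * C3)))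
    calc (24 + 104 * C3) * min (1 / 200) (ε / (2 * (24 + 104 * C3)))
        ≤ (24 + 104 * C3) * (ε / (2 * (24 + 104 * C3))) := mul_le_mul_of_nonneg_left h4 hK.le
      _ = ε / 2 := by field_simp
  obtain ⟨k, CA, hk, hCA, hAS⟩ := hAS η hη hη1
  obtain ⟨CF, hCF, hFM⟩ := hFM (1 / 2 - η) (by linarith) (by linarith)
  obtain ⟨K', hK'⟩ : ∃ K' : ℝ, K' = CA + 2 * CF + 16 * C1 + 3 * CT + 2 * C2 + 8 + 2 * C3 := ⟨_, rfl⟩
  have hlog : Tendsto Real.log atTop atTop := Real.tendsto_log_atTop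
  filter_upwards [hAS, hFM, hTW, hlog.eventually_ge_atTop (4 : ℝ), hlog.eventually_ge_atTop (2 / (3 * η)),
    hlog.eventually_ge_atTop (2 * K' / ε), eventually_gt_atTop (0:ℝ)] with T hAS hFM hTW hL4 hLη hLK hT
  intro κ hκ
  obtain ⟨L, hLdef⟩ : ∃ L : ℝ, L = Real.log T := ⟨_, rfl⟩
  rw [← hLdef] at hL4 hLη hLK ⊢
  have hTL : T = Real.exp L := by rw [hLdef, Real.exp_log hT]
  have hL0 : 0 < L := by linarith
  have hηL : 0 < η * L := by positivity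
  have hk1 : (0:ℝ) < (k:ℝ) + 1 := by positivity
  obtain ⟨lp, hlpdef⟩ : ∃ lp : ℝ, lp = Real.log (2 * Real.pi) := ⟨_, rfl⟩
  have hlp0 : 0 ≤ lp := by rw [hlpdef]; exact log2pi.1
  have hlp2 : lp ≤ 2 := by rw [hlpdef]; exact log2pi.2
  obtain ⟨c, hc⟩ : ∃ c : ℝ, c = η * L / ((k:ℝ) + 1) := ⟨_, rfl⟩
  have hc0 : 0 < c := by rw [hc]; positivity
  obtain ⟨D1, hD1⟩ : ∃ D1 : ℝ, D1 = (1 / 2 - 2 * η) * L := ⟨_, rfl⟩
  obtain ⟨D2, hD2⟩ : ∃ D2 : ℝ, D2 = (1 / 2 + η) * L - lp := ⟨_, rfl⟩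
  have hlogT : Real.log (T / (2 * Real.pi)) = L - lp := by
    rw [Real.log_div hT.ne' (by positivity), ← hLdef, ← hlpdef]
  have hD2' : D2 = Real.log (T / (2 * Real.pi)) - D1 - η * Real.log T := by
    rw [hlogT, hD2, hD1, ← hLdef]; ring
  have hA := hAS κ hκ c D1 D2 (by rw [hc, hLdef]) (by rw [hD1, hLdef]) hD2'
  have hkc : ((k + 1 : ℕ) : ℝ) * c = η * L := by
    rw [hc]; push_cast; field_simp
  have hD12 : D1 ≤ D2 := by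
    have h5 : 2 ≤ 3 * η * L := by
      rw [div_le_iff₀ (by positivity)] at hLη
      linarith
    rw [hD1, hD2]; nlinarith
  -- the lengths
  have hM12 : ⌊Real.exp (D1 + η * L)⌋₊ ≤ ⌊Real.exp (D2 + η * L)⌋₊ :=
    Nat.floor_le_floor (Real.exp_le_exp.2 (by linarith))
  have hcs1 : ∀ t : ℝ, cs (k + 1) c D1 (cl t) =
      DP (fun n => ((fc (k + 1) c D1 n : ℝ) : ℂ)) ⌊Real.exp (D1 + η * L)⌋₊ t := fun t =>
    cs_DP hc0 (by rw [hkc]) t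
  have hcs1' : ∀ t : ℝ, cs (k + 1) c D1 (cl t) =
      DP (fun n => ((fc (k + 1) c D1 n : ℝ) : ℂ)) ⌊Real.exp (D2 + η * L)⌋₊ t := fun t =>
    cs_DP hc0 (by rw [hkc]; exact hM12) t
  have hcs2 : ∀ t : ℝ, cs (k + 1) c D2 (cl t) =
      DP (fun n => ((fc (k + 1) c D2 n : ℝ) : ℂ)) ⌊Real.exp (D2 + η * L)⌋₊ t := fun t =>
    cs_DP hc0 (by rw [hkc]) t
  have hcs3 : ∀ t : ℝ, cs (k + 1) c D2 (cl t) - cs (k + 1) c D1 (cl t) =
      DP (fun n => (((fc (k + 1) c D2 n - fc (k + 1) c D1 n : ℝ)) : ℂ)) ⌊Real.exp (D2 + η * L)⌋₊ t := fun t => by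
    rw [hcs2, hcs1', DP_sub]
  have hM1 : (⌊Real.exp (D1 + η * L)⌋₊ : ℝ) ≤ T ^ (1 / 2 - η) := by
    refine (Nat.floor_le (Real.exp_pos _).le).trans ?_
    rw [Real.rpow_def_of_pos hT, ← hLdef]
    refine Real.exp_le_exp.2 ?_
    rw [hD1]; nlinarith
  have hM2 : (⌊Real.exp (D2 + η * L)⌋₊ : ℝ) ≤ T ^ (41 / 80 : ℝ) := by
    refine (Nat.floor_le (Real.exp_pos _).le).trans ?_
    rw [Real.rpow_def_of_pos hT, ← hLdef]
    refine Real.exp_le_exp.2 ?_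
    rw [hD2]; nlinarith
  have habs : ∀ (D : ℝ) (n : ℕ), |fc (k + 1) c D n| ≤ 1 := fun D n => by
    rw [abs_of_nonneg (fc_nonneg hc0 n)]; exact fc_le_one hc0 n
  have habs3 : ∀ n : ℕ, |fc (k + 1) c D2 n - fc (k + 1) c D1 n| ≤ 1 := fun n => by
    have a1 := fc_nonneg (k := k + 1) (D := D2) hc0 n
    have a2 := fc_le_one (k := k + 1) (D := D2) hc0 n
    have a3 := fc_nonneg (k := k + 1) (D := D1) hc0 n
    have a4 := fc_le_one (k := k + 1) (D := D1) hc0 n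
    rw [abs_le]; constructor <;> linarith
  have hf0 : ∀ n ∈ Icc 1 ⌊Real.exp D1⌋₊, fc (k + 1) c D2 n - fc (k + 1) c D1 n = 0 := fun n hn => by
    rw [fc_one hc0 hn, fc_one hc0 (Icc_subset_Icc le_rfl (Nat.floor_le_floor (Real.exp_le_exp.2 hD12)) hn), sub_self]
  have hF := hFM κ hκ (fc (k + 1) c D1) ⌊Real.exp (D1 + η * L)⌋₊ (habs D1) hM1
  have hT2 := hTW κ hκ (fc (k + 1) c D2) ⌊Real.exp (D2 + η * L)⌋₊ (habs D2) hM2
  have hT3 := hTW κ hκ (fun n => fc (k + 1) c D2 n - fc (k + 1) c D1 n) ⌊Real.exp (D2 + η * L)⌋₊ habs3 hM2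
  rw [← hLdef] at hA hT2 hT3
  simp only [hcs3] at hA
  simp only [hcs1, hcs2] at hA
  have s1 := sum1 hC1 h1 hη hη1 (by linarith : (1:ℝ) ≤ L) hc hD1
  have s2 := sum2 hC3 h2 h3 hη hη1 hL4 hc hD2 hlp0 hlp2
  have s3 := sum3 hC3 h3 (fun n => fc (k + 1) c D2 n - fc (k + 1) c D1 n) hη hη1 hL4 hD1 hD2 hlp0 hD12 habs3 hf0
  have hL3 : 1 ≤ L ^ 3 := one_le_pow₀ (by linarith)
  have hCFL : CF ≤ CF * L ^ 3 := by nlinarith
  have e1 : 1 / (2 * Real.pi ^ 2) * L ^ 4 =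
      2 * (3 / (32 * Real.pi ^ 2) * L ^ 4) + 2 * (5 / (32 * Real.pi ^ 2) * L ^ 4) := by
    have : Real.pi ≠ 0 := Real.pi_ne_zero
    field_simp
    norm_num
  have hfin : K' * L ^ 3 + (24 + 104 * C3) * η * L ^ 4 ≤ ε * L ^ 4 := by
    have a1 : 2 * K' ≤ ε * L := by
      rw [div_le_iff₀ hε] at hLK
      linarith
    have a2 : K' * L ^ 3 ≤ ε / 2 * L ^ 4 := by
      have : K' * L ^ 3 ≤ (ε / 2 * L) * L ^ 3 := mul_le_mul_of_nonneg_right (by linarith) (by positivity)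
      calc K' * L ^ 3 ≤ (ε / 2 * L) * L ^ 3 := this
        _ = _ := by ring
    have a3 : (24 + 104 * C3) * η * L ^ 4 ≤ ε / 2 * L ^ 4 :=
      mul_le_mul_of_nonneg_right hηε (by positivity)
    linarith
  refine le_trans ?_ hfin
  rw [hK', e1]
  rw [abs_le] at *
  constructor <;> nlinarith [hA.1, hA.2, hF.1, hF.2, hT2.1, hT2.2, hT3.1, hT3.2, s1.1, s1.2, s2.1, s2.2, s3.1, s3.2]

end

end Pool.Agent.TH757.N4_ING
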